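import Mathlib

/-!
Modular symbols of weight `g + 2` for `Γ₀(N)` with nebentypus, with coefficients in a field `F`:
functions `Φ` on pairs of cusps (elements of `P¹(ℚ) = ℚ ∪ {∞}`) with values in the binary forms of
degree `g` over `F`.
-/

open MvPolynomial OnePoint

namespace Pool.Agent.MuSym

/-- The action `x ↦ (a x + b) / (c x + d)` of an integral matrix on the cusps. -/
noncomputable def mob (a b c d : ℤ) (x : OnePoint ℚ) : OnePoint ℚ :=
  x.elim (if c = 0 then ∞ else ((a / c : ℚ) : OnePoint ℚ))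
    (fun r : ℚ => if (c : ℚ) * r + d = 0 then ∞ else (((a * r + b) / (c * r + d) : ℚ) : OnePoint ℚ))

variable {F : Type} [Field F]

/-- The action `P(X, Y) ↦ P(a X + c Y, b X + d Y)` of an integral matrix on the binary forms. -/
noncomputable def act (a b c d : ℤ) (P : MvPolynomial (Fin 2) F) : MvPolynomial (Fin 2) F :=
  aeval ![C (a : F) * X 0 + C (c : F) * X 1, C (b : F) * X 0 + C (d : F) * X 1] P

/-- A modular symbol of weight `g + 2`, level `Γ₀(N)` and nebentypus `ε`. -/
structure IsModSym (N g : ℕ) (ε : DirichletCharacter F N)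
    (Φ : OnePoint ℚ → OnePoint ℚ → MvPolynomial (Fin 2) F) : Prop where
  homog : ∀ x y, (Φ x y).IsHomogeneous g
  add : ∀ x y z, Φ x y + Φ y z = Φ x z
  equiv : ∀ a b c d : ℤ, a * d - b * c = 1 → (N : ℤ) ∣ c → ∀ x y,
    Φ (mob a b c d x) (mob a b c d y) = C (ε d) * act a b c d (Φ x y)

/-- A boundary symbol: the difference of the values of an equivariant function on the cusps. -/
def IsBoundary (N g : ℕ) (ε : DirichletCharacter F N)
    (Φ : OnePoint ℚ → OnePoint ℚ → MvPolynomial (Fin 2) F) : Prop :=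
  ∃ B : OnePoint ℚ → MvPolynomial (Fin 2) F, (∀ x, (B x).IsHomogeneous g) ∧
    (∀ x y, Φ x y = B y - B x) ∧
    ∀ a b c d : ℤ, a * d - b * c = 1 → (N : ℤ) ∣ c → ∀ x,
      B (mob a b c d x) = C (ε d) * act a b c d (B x)

/-- The Hecke operator `T_p`: the sum over the matrices `(1 j; 0 p)`, `0 ≤ j < p`, and `(p 0; 0 1)`
(which gets the factor `ε p`), acting on the cusps, and on the forms through the adjugates. If `p`
divides `N`, then `ε p = 0` and this is the operator `U_p`. -/
noncomputable def heckeT (p N : ℕ) (ε : DirichletCharacter F N)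
    (Φ : OnePoint ℚ → OnePoint ℚ → MvPolynomial (Fin 2) F) (x y : OnePoint ℚ) :
    MvPolynomial (Fin 2) F :=
  ∑ j ∈ Finset.range p, act p (-j) 0 1 (Φ (mob 1 j 0 p x) (mob 1 j 0 p y)) +
    C (ε p) * act 1 0 0 p (Φ (mob p 0 0 1 x) (mob p 0 0 1 y))

/-- The coefficient of `Y ^ g` of the value of `Φ` on the path from `∞` to `b / p ^ n`. For a
`T_p`-eigensymbol with eigenvalue `a ≠ 0`, of weight at least three or of a level divisible by `p`,
`a⁻ⁿ` times this number is the measure of `b + p ^ n ℤ_p`, that is, the reduction modulo `p` of the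
value of the `p`-adic `L`-function on this ball. -/
noncomputable def val (p : ℕ) (Φ : OnePoint ℚ → OnePoint ℚ → MvPolynomial (Fin 2) F) (n : ℕ)
    (b : ℤ) : F :=
  eval ![0, 1] (Φ ∞ ((b / p ^ n : ℚ) : OnePoint ℚ))

/-- `Φ` lies in the `s`-part for the involution induced by `diag(-1, 1)`. -/
def HasSign (s : F) (Φ : OnePoint ℚ → OnePoint ℚ → MvPolynomial (Fin 2) F) : Prop :=
  ∀ x y, Φ (mob (-1) 0 0 1 x) (mob (-1) 0 0 1 y) = C s * act (-1) 0 0 1 (Φ x y)

end Pool.Agent.MuSym
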