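import Pool.Agent.MuSym.Kappa

/-!
From binary forms to functions: the values of a modular symbol as functions of `(u, v)`.
-/

open MvPolynomial OnePoint Finset

namespace Pool.Agent.MuSym

variable {F : Type} [Field F]

lemma eval_act (a b c d : ℤ) (P : MvPolynomial (Fin 2) F) (u v : F) :
    eval ![u, v] (act a b c d P) = eval ![a * u + c * v, b * u + d * v] P := by
  unfold act
  rw [MvPolynomial.aeval_def, ← MvPolynomial.coe_eval₂Hom]
  have : (eval ![u, v]).comp (eval₂Hom (algebraMap F (MvPolynomial (Fin 2) F))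
      ![C (a : F) * X 0 + C (c : F) * X 1, C (b : F) * X 0 + C (d : F) * X 1]) =
      eval ![a * u + c * v, b * u + d * v] := by
    apply MvPolynomial.ringHom_ext
    · intro r
      simp
    · intro i
      fin_cases i <;> simp
  exact congrArg (fun f => f P) this

lemma homog_degree {g : ℕ} {P : MvPolynomial (Fin 2) F} (hP : P.IsHomogeneous g)
    {d : Fin 2 →₀ ℕ} (hd : coeff d P ≠ 0) : d 0 + d 1 = g := by
  have := hP hd
  rw [Finsupp.weight_apply, Finsupp.sum_fintype _ _ (by simp)] at this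
  simpa [Fin.sum_univ_two] using this

lemma eval_smul_homog {g : ℕ} {P : MvPolynomial (Fin 2) F} (hP : P.IsHomogeneous g) (t u v : F) :
    eval ![t * u, t * v] P = t ^ g * eval ![u, v] P := by
  rw [eval_eq', eval_eq', mul_sum]
  apply sum_congr rfl
  intro d hd
  have h1 := homog_degree hP (MvPolynomial.mem_support_iff.mp hd)
  simp only [Fin.prod_univ_two, Matrix.cons_val_zero, Matrix.cons_val_one]
  rw [← h1, mul_pow, mul_pow, pow_add]
  ring

lemma mob_coe (a b c d : ℤ) {r : ℚ} (h : (c : ℚ) * r + d ≠ 0) :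
    mob a b c d (r : OnePoint ℚ) = (((a * r + b) / (c * r + d) : ℚ) : OnePoint ℚ) := by
  simp [mob, h]

lemma mob_infty_zero (a b d : ℤ) : mob a b 0 d ∞ = ∞ := by
  simp [mob]

lemma mob_up {p : ℕ} (hp : p.Prime) (j : ℕ) (r : ℚ) :
    mob 1 j 0 p (r : OnePoint ℚ) = (((r + j) / p : ℚ) : OnePoint ℚ) := by
  have hpQ : (p : ℚ) ≠ 0 := by exact_mod_cast hp.ne_zero
  rw [mob_coe]
  · simp
  · simpa using hp.ne_zero

lemma mob_low {p : ℕ} (r : ℚ) :
    mob p 0 0 1 (r : OnePoint ℚ) = ((p * r : ℚ) : OnePoint ℚ) := by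
  rw [mob_coe]
  · simp
  · simp

variable {p N g : ℕ} {ε : DirichletCharacter F N} {a : F}
  {Φ : OnePoint ℚ → OnePoint ℚ → MvPolynomial (Fin 2) F}

lemma f_equiv (hΦ : IsModSym N g ε Φ) (a b c d : ℤ) (h : a * d - b * c = 1) (hc : (N : ℤ) ∣ c)
    (x y : OnePoint ℚ) (u v : F) :
    eval ![u, v] (Φ (mob a b c d x) (mob a b c d y)) =
      ε d * eval ![a * u + c * v, b * u + d * v] (Φ x y) := by
  rw [hΦ.equiv a b c d h hc, map_mul, eval_C, eval_act]

lemma f_add (hΦ : IsModSym N g ε Φ) (x y z : OnePoint ℚ) (u v : F) :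
    eval ![u, v] (Φ x y) + eval ![u, v] (Φ y z) = eval ![u, v] (Φ x z) := by
  rw [← map_add, hΦ.add]

lemma f_self (hΦ : IsModSym N g ε Φ) (x : OnePoint ℚ) : Φ x x = 0 := by
  have := hΦ.add x x x
  simpa using this

/-- The Hecke relation, in characteristic `p`. -/
lemma f_T [CharP F p] (hΦ : IsModSym N g ε Φ)
    (hT : ∀ x y, heckeT p N ε Φ x y = C a * Φ x y) (x y : OnePoint ℚ) (u v : F) :
    a * eval ![u, v] (Φ x y) = ∑ j ∈ range p, (v - j * u) ^ g *
      eval ![0, 1] (Φ (mob 1 j 0 p x) (mob 1 j 0 p y)) +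
      ε p * (u ^ g * eval ![1, 0] (Φ (mob p 0 0 1 x) (mob p 0 0 1 y))) := by
  have h := congrArg (eval ![u, v]) (hT x y)
  rw [map_mul, eval_C] at h
  rw [← h]
  unfold heckeT
  rw [map_add, map_sum, map_mul, eval_C, eval_act]
  congr 1
  · apply sum_congr rfl
    intro j _
    rw [eval_act, ← eval_smul_homog (hΦ.homog _ _)]
    congr 2
    simp
    ring
  · congr 1
    rw [← eval_smul_homog (hΦ.homog _ _)]
    congr 2
    simp

/-- The Hecke relation on the path from `∞` to a rational number. -/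
lemma f_T_inf (hp : p.Prime) [CharP F p] (hΦ : IsModSym N g ε Φ)
    (hT : ∀ x y, heckeT p N ε Φ x y = C a * Φ x y) (r : ℚ) (u v : F) :
    a * eval ![u, v] (Φ ∞ r) = ∑ j ∈ range p, (v - j * u) ^ g *
      eval ![0, 1] (Φ ∞ (((r + j) / p : ℚ) : OnePoint ℚ)) +
      ε p * (u ^ g * eval ![1, 0] (Φ ∞ ((p * r : ℚ) : OnePoint ℚ))) := by
  rw [f_T hΦ hT, mob_infty_zero, mob_low]
  congr 1
  apply sum_congr rfl
  intro j _
  rw [mob_infty_zero, mob_up hp]

end Pool.Agent.MuSym
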