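import Pool.Agent.MuSym.Fn

/-!
Extension of the coefficient field of a modular symbol.
-/

open MvPolynomial OnePoint Finset

namespace Pool.Agent.MuSym

variable {F L : Type} [Field F] [Field L] (ι : F →+* L)

lemma map_act (a b c d : ℤ) (P : MvPolynomial (Fin 2) F) :
    map ι (act a b c d P) = act a b c d (map ι P) := by
  unfold act
  rw [aeval_def, aeval_def, eval₂_map, hom_eval₂]
  congr 1
  · ext r
    simp
  · funext i
    fin_cases i <;> simp

lemma eval_map_vec (P : MvPolynomial (Fin 2) F) (u v : F) :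
    eval ![ι u, ι v] (map ι P) = ι (eval ![u, v] P) := by
  rw [MvPolynomial.map_eval]
  congr 1
  congr 1
  funext i
  fin_cases i <;> simp

variable {p N g : ℕ} {ε : DirichletCharacter F N} {a : F}
  {Φ : OnePoint ℚ → OnePoint ℚ → MvPolynomial (Fin 2) F}

lemma base_isModSym (hΦ : IsModSym N g ε Φ) :
    IsModSym N g (ε.ringHomComp ι) (fun x y => map ι (Φ x y)) where
  homog x y := (hΦ.homog x y).map ι
  add x y z := by rw [← map_add, hΦ.add]
  equiv a b c d h hc x y := by
    rw [hΦ.equiv a b c d h hc, map_mul, map_C, map_act, MulChar.ringHomComp_apply]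

lemma base_hecke (hT : ∀ x y, heckeT p N ε Φ x y = C a * Φ x y) (x y : OnePoint ℚ) :
    heckeT p N (ε.ringHomComp ι) (fun x y => map ι (Φ x y)) x y = C (ι a) * map ι (Φ x y) := by
  rw [← map_C, ← map_mul, ← hT]
  unfold heckeT
  rw [map_add, map_sum, map_mul, map_C, map_act, MulChar.ringHomComp_apply]
  congr 1
  apply sum_congr rfl
  intro j _
  rw [map_act]

lemma base_val (n : ℕ) (b : ℤ) (h : val p Φ n b = 0) :
    val p (fun x y => map ι (Φ x y)) n b = 0 := by
  unfold val at h ⊢
  have := eval_map_vec ι (Φ ∞ ((b / p ^ n : ℚ) : OnePoint ℚ)) 0 1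
  rw [map_zero, map_one] at this
  rw [this, h, map_zero]

end Pool.Agent.MuSym
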