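import Mathlib

/-!
# The boundary symbol

The function `Bq ε g r u v = ε(q) (a u + q v) ^ g` of a rational number `r = a / q` in lowest
terms: its equivariance under `Γ₀(N)` and the relation for the Hecke operator `T_p` in
characteristic `p`.
-/

namespace Pool.Agent.MuSym

variable {F : Type*} [Field F] {N : ℕ}

/-- The boundary function `ε(q) (a u + q v) ^ g`, where `r = a / q` in lowest terms. -/
noncomputable def Bq (ε : DirichletCharacter F N) (g : ℕ) (r : ℚ) (u v : F) : F :=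
  ε (r.den : ℕ) * (r.num * u + r.den * v) ^ g

theorem Bq_pos (ε : DirichletCharacter F N) (g : ℕ) {U V : ℤ} (hV : 0 < V) (h : IsCoprime U V)
    (u v : F) : Bq ε g (U / V) u v = ε (V : ℤ) * (U * u + V * v) ^ g := by
  have hcop : Nat.Coprime U.natAbs V.natAbs := Int.isCoprime_iff_nat_coprime.mp h
  have hn : ((U : ℚ) / V).num = U := Rat.num_div_eq_of_coprime hV hcop
  have hd : (((U : ℚ) / V).den : ℤ) = V := Rat.den_div_eq_of_coprime hV hcop
  have h1 : ((((U : ℚ) / V).den : ℕ) : ZMod N) = ((V : ℤ) : ZMod N) := by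
    have := congrArg (Int.cast : ℤ → ZMod N) hd
    push_cast at this ⊢
    exact this
  have h2 : ((((U : ℚ) / V).den : ℕ) : F) = (V : F) := by
    have := congrArg (Int.cast : ℤ → F) hd
    push_cast at this
    exact this
  rw [Bq, h1, hn, h2]

theorem Bq_eq (ε : DirichletCharacter F N) (g : ℕ) (hε : ε (-1) * (-1) ^ g = 1) {U V : ℤ}
    (hV : V ≠ 0) (h : IsCoprime U V) (u v : F) :
    Bq ε g (U / V) u v = ε (V : ℤ) * (U * u + V * v) ^ g := by
  rcases lt_or_gt_of_ne hV with h' | h'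
  · have e : (U : ℚ) / V = ((-U : ℤ) : ℚ) / ((-V : ℤ) : ℚ) := by push_cast; rw [neg_div_neg_eq]
    rw [e, Bq_pos ε g (by omega) h.neg_neg u v]
    have h1 : (((-V : ℤ) : ℤ) : ZMod N) = (-1) * ((V : ℤ) : ZMod N) := by push_cast; ring
    have h2 : (((-U : ℤ) : F) * u + ((-V : ℤ) : F) * v) = (-1) * (U * u + V * v) := by
      push_cast; ring
    rw [h1, map_mul, h2, mul_pow]
    linear_combination (ε (V : ℤ) * (U * u + V * v) ^ g) * hε
  · exact Bq_pos ε g h' h u v

/-- `Bq` in terms of numerator and denominator. -/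
theorem Bq_def (ε : DirichletCharacter F N) (g : ℕ) (r : ℚ) (u v : F) :
    Bq ε g r u v = ε (r.den : ℕ) * (r.num * u + r.den * v) ^ g := rfl

/-- Equivariance under `Γ₀(N)`. -/
theorem Bq_equiv (ε : DirichletCharacter F N) (g : ℕ) (hε : ε (-1) * (-1) ^ g = 1)
    {a b c d : ℤ} (hdet : a * d - b * c = 1) (hN : (N : ℤ) ∣ c) {r : ℚ}
    (hr : (c : ℚ) * r + d ≠ 0) (u v : F) :
    Bq ε g ((a * r + b) / (c * r + d)) u v =
      ε (d : ℤ) * Bq ε g r (a * u + c * v) (b * u + d * v) := by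
  have hdq : (r.den : ℚ) ≠ 0 := by exact_mod_cast r.den_ne_zero
  have hrd : r * r.den = r.num := Rat.mul_den_eq_num r
  set n : ℤ := r.num with hn
  set m : ℤ := (r.den : ℤ) with hm
  have hmq : (m : ℚ) = r.den := by rw [hm]; push_cast; rfl
  have hnm : IsCoprime n m := by
    rw [Int.isCoprime_iff_nat_coprime]
    simpa [hn, hm] using r.reduced
  have hmul : ((c : ℚ) * r + d) * m = ((c * n + d * m : ℤ) : ℚ) := by
    push_cast
    rw [← hrd, hmq]; ring
  have hmul' : ((a : ℚ) * r + b) * m = ((a * n + b * m : ℤ) : ℚ) := by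
    push_cast
    rw [← hrd, hmq]; ring
  have hm0 : (m : ℚ) ≠ 0 := by rw [hmq]; exact hdq
  have hV : c * n + d * m ≠ 0 := by
    intro h
    rw [h] at hmul
    push_cast at hmul
    exact mul_ne_zero hr hm0 hmul
  have hcop : IsCoprime (a * n + b * m) (c * n + d * m) := by
    obtain ⟨s, t, hst⟩ := hnm
    refine ⟨s * d - t * c, t * a - s * b, ?_⟩
    linear_combination (s * n + t * m) * hdet + hst
  have hfrac : (a * r + b) / (c * r + d) =
      ((a * n + b * m : ℤ) : ℚ) / ((c * n + d * m : ℤ) : ℚ) := by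
    rw [← hmul, ← hmul', mul_div_mul_right _ _ hm0]
  rw [hfrac, Bq_eq ε g hε hV hcop u v, Bq_def]
  have h1 : ((c * n + d * m : ℤ) : ZMod N) = ((d : ℤ) : ZMod N) * ((r.den : ℕ) : ZMod N) := by
    have hc : ((c : ℤ) : ZMod N) = 0 := (ZMod.intCast_zmod_eq_zero_iff_dvd c N).mpr hN
    push_cast
    rw [hc, hm]
    push_cast
    ring
  have hmF : ((m : ℤ) : F) = ((r.den : ℕ) : F) := by rw [hm]; push_cast; rfl
  rw [h1, map_mul]
  push_cast
  rw [hmF]
  ring

theorem Bq_int (ε : DirichletCharacter F N) (g : ℕ) (S : ℤ) (u v : F) :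
    Bq ε g (S : ℚ) u v = (S * u + v) ^ g := by
  have h := Bq_pos ε g (U := S) (V := 1) one_pos isCoprime_one_right u v
  simpa using h

section CharP

variable {p : ℕ} [CharP F p]

theorem Bq_frac (ε : DirichletCharacter F N) (g : ℕ) (hp : p.Prime) {S : ℤ}
    (hS : ¬ (p : ℤ) ∣ S) {i : ℕ} (hi : 1 ≤ i) (u v : F) :
    Bq ε g ((S : ℚ) / (p : ℚ) ^ i) u v = ε (p : ℕ) ^ i * (S * u) ^ g := by
  have hpp : Prime (p : ℤ) := Nat.prime_iff_prime_int.mp hp
  have hcop : IsCoprime S ((p : ℤ) ^ i) :=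
    (((Prime.coprime_iff_not_dvd hpp).mpr hS).symm).pow_right
  have hpos : (0 : ℤ) < (p : ℤ) ^ i := pow_pos (by exact_mod_cast hp.pos) _
  have h := Bq_pos ε g hpos hcop u v
  have hp0 : ((p : ℤ) : F) = 0 := by push_cast; exact CharP.cast_eq_zero F p
  push_cast at h
  rw [h]
  push_cast at hp0
  rw [hp0, zero_pow (by omega : i ≠ 0), zero_mul, add_zero, map_pow]

omit [CharP F p] in
lemma eps_zero (hp : p.Prime) (ε : DirichletCharacter F N) (hpN : p ∣ N) : ε p = 0 := by
  apply MulChar.map_nonunit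
  rw [ZMod.isUnit_iff_coprime, hp.coprime_iff_not_dvd]
  exact fun h => h hpN

omit [CharP F p] in
lemma eps_pow (hp : p.Prime) (ε : DirichletCharacter F N) {g : ℕ} (hg : 1 ≤ g ∨ p ∣ N) :
    ε p * (0 : F) ^ g = 0 := by
  rcases hg with h | h
  · rw [zero_pow (by omega), mul_zero]
  · rw [eps_zero hp ε h, zero_mul]

theorem Bq_den_zero (hp : p.Prime) (ε : DirichletCharacter F N) {g : ℕ} (hg : 1 ≤ g ∨ p ∣ N)
    {U V : ℤ} (hV : 0 < V) (h : IsCoprime U V) (hpV : (p : ℤ) ∣ V) :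
    Bq ε g ((U : ℚ) / V) 0 1 = 0 := by
  rw [Bq_pos ε g hV h]
  have h0 : (V : F) = 0 := (CharP.intCast_eq_zero_iff F p V).mpr hpV
  obtain ⟨V', hV'⟩ := hpV
  rw [h0, mul_zero, zero_mul, add_zero]
  have h1 : ((V : ℤ) : ZMod N) = (p : ZMod N) * (V' : ZMod N) := by
    rw [hV']
    push_cast
    rfl
  rw [h1, map_mul, mul_right_comm, eps_pow hp ε hg, zero_mul]

/-- The relation for the Hecke operator `T_p` in characteristic `p`. -/
theorem Bq_T (ε : DirichletCharacter F N) {g : ℕ} (hg : 1 ≤ g ∨ p ∣ N) (hp : p.Prime) (r : ℚ) (u v : F) :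
    Bq ε g r u v = ∑ j ∈ Finset.range p, (v - j * u) ^ g * Bq ε g ((r + j) / p) 0 1 +
      ε (p : ℕ) * u ^ g * Bq ε g (p * r) 1 0 := by
  have hpp : Prime (p : ℤ) := Nat.prime_iff_prime_int.mp hp
  have hpq : (p : ℚ) ≠ 0 := by exact_mod_cast hp.ne_zero
  have hppos : (0 : ℤ) < p := by exact_mod_cast hp.pos
  have hdq : (r.den : ℚ) ≠ 0 := by exact_mod_cast r.den_ne_zero
  have hrd : r * r.den = r.num := Rat.mul_den_eq_num r
  obtain ⟨n, hn⟩ : ∃ n : ℤ, n = r.num := ⟨_, rfl⟩
  obtain ⟨m, hm⟩ : ∃ m : ℤ, m = (r.den : ℤ) := ⟨_, rfl⟩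
  have hmpos : 0 < m := by rw [hm]; exact_mod_cast r.den_pos
  have hmq : (m : ℚ) ≠ 0 := by exact_mod_cast hmpos.ne'
  have hnm : IsCoprime n m := by
    rw [Int.isCoprime_iff_nat_coprime]
    simpa [hn, hm] using r.reduced
  have hr : r = n / m := by
    rw [eq_div_iff hmq, hm, hn]; push_cast; exact hrd
  have hsh : ∀ j : ℕ, (r + j) / p = ((n + j * m : ℤ) : ℚ) / ((p * m : ℤ) : ℚ) := by
    intro j
    rw [hr]; push_cast
    field_simp
  have hcopj : ∀ j : ℕ, IsCoprime (n + j * m) m := fun j => by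
    have := hnm.add_mul_right_left (j : ℤ)
    exact this
  have hpF : (p : F) = 0 := CharP.cast_eq_zero F p
  rw [hr]
  rw [Bq_pos ε g hmpos hnm u v]
  rw [hr] at hsh
  by_cases hpm : (p : ℤ) ∣ m
  · -- `p` divides the denominator
    have hpn : ¬ (p : ℤ) ∣ n := fun h => hpp.not_isUnit (hnm.isUnit_of_dvd' h hpm)
    have hzero : ∀ j ∈ Finset.range p, (v - j * u) ^ g * Bq ε g ((n / m + j) / p) 0 1 = 0 := by
      intro j _
      rw [hsh j, Bq_den_zero hp ε hg (mul_pos hppos hmpos) ?_ (dvd_mul_right _ _), mul_zero]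
      refine IsCoprime.mul_right ?_ (hcopj j)
      refine ((Prime.coprime_iff_not_dvd hpp).mpr fun h => hpn ?_).symm
      exact (dvd_add_left (hpm.mul_left _)).mp h
    rw [Finset.sum_eq_zero hzero, zero_add]
    obtain ⟨m', hm'⟩ := hpm
    have hm'pos : 0 < m' := by
      rw [hm'] at hmpos
      exact (mul_pos_iff_of_pos_left hppos).mp hmpos
    have hm'q : (m' : ℚ) ≠ 0 := by exact_mod_cast hm'pos.ne'
    have e : (p : ℚ) * (n / m) = (n : ℚ) / (m' : ℚ) := by
      rw [hm']; push_cast; field_simp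
    have hcop' : IsCoprime n m' := by
      rw [hm'] at hnm; exact hnm.of_mul_right_right
    rw [e, Bq_pos ε g hm'pos hcop', hm']
    push_cast
    rw [map_mul, hpF]
    ring
  · -- `p` does not divide the denominator
    obtain ⟨j0, hj0, t, ht⟩ : ∃ j0 : ℕ, j0 < p ∧ ∃ t : ℤ, n + j0 * m = p * t := by
      obtain ⟨s, s', hs⟩ := ((Prime.coprime_iff_not_dvd hpp).mpr hpm).symm
      obtain ⟨j0, hj⟩ : ∃ j0 : ℕ, (j0 : ℤ) = (-n * s) % p :=
        ⟨((-n * s) % (p : ℤ)).toNat, Int.toNat_of_nonneg (Int.emod_nonneg _ hppos.ne')⟩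
      refine ⟨j0, ?_, n * s' - (-n * s / p) * m, ?_⟩
      · have := Int.emod_lt_of_pos (-n * s) hppos
        rw [← hj] at this
        exact_mod_cast this
      · have h2 := Int.emod_add_mul_ediv (-n * s) (p : ℤ)
        rw [← hj] at h2
        linear_combination (-n) * hs + m * h2
    have hone : ∀ j ∈ Finset.range p, j ≠ j0 →
        (v - j * u) ^ g * Bq ε g ((n / m + j) / p) 0 1 = 0 := by
      intro j hj hjj
      rw [hsh j, Bq_den_zero hp ε hg (mul_pos hppos hmpos) ?_ (dvd_mul_right _ _), mul_zero]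
      refine IsCoprime.mul_right ?_ (hcopj j)
      refine ((Prime.coprime_iff_not_dvd hpp).mpr fun h => hjj ?_).symm
      have h1 : (p : ℤ) ∣ ((j : ℤ) - j0) * m := by
        have : ((j : ℤ) - j0) * m = (n + j * m) - p * t := by rw [← ht]; ring
        rw [this]
        exact dvd_sub h (dvd_mul_right _ _)
      have h2 : (p : ℤ) ∣ (j : ℤ) - j0 := (hpp.dvd_or_dvd h1).resolve_right hpm
      have hj' : j < p := Finset.mem_range.mp hj
      have h4 : (j : ℤ) - j0 = 0 := by
        refine Int.eq_zero_of_abs_lt_dvd h2 ?_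
        rw [abs_lt]; constructor <;> omega
      omega
    rw [Finset.sum_eq_single_of_mem j0 (Finset.mem_range.mpr hj0) hone]
    have e0 : ((n : ℚ) / m + j0) / p = (t : ℚ) / m := by
      rw [hsh j0, ht]; push_cast; field_simp
    have hcopt : IsCoprime t m := by
      have := hcopj j0
      rw [ht] at this
      exact this.of_mul_left_right
    have e1 : (p : ℚ) * (n / m) = ((p * n : ℤ) : ℚ) / (m : ℚ) := by push_cast; ring
    have hcopn : IsCoprime (p * n) m :=
      IsCoprime.mul_left ((Prime.coprime_iff_not_dvd hpp).mpr hpm) hnm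
    rw [e0, e1, Bq_pos ε g hmpos hcopt, Bq_pos ε g hmpos hcopn]
    have hn' : (n : F) = -(j0 : F) * m := by
      have := congrArg (Int.cast : ℤ → F) ht
      push_cast at this
      rw [hpF, zero_mul] at this
      linear_combination this
    push_cast
    rw [hpF, hn']
    have h0 := eps_pow (g := g) hp ε hg
    simp only [zero_mul, mul_zero, add_zero, zero_add, mul_one]
    have : (-(j0 : F) * m * u + m * v) ^ g = (v - j0 * u) ^ g * (m : F) ^ g := by
      rw [← mul_pow]; congr 1; ring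
    rw [this]
    linear_combination (-(u ^ g * ε (m : ℤ))) * h0

end CharP

end Pool.Agent.MuSym
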