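import Pool.Agent.MuSym.Fn

/-!
# The branches of the measure

For `0 ≤ i < p - 1` the `i`-th branch of the mod `p` measure of a modular symbol: the coefficients
at level `n` are indexed by the classes `c` in the image of `b ↦ b ^ (p - 1)`, that is, by the
quotient of `(ℤ/pⁿ)ˣ` by the roots of unity of order `p - 1`.
-/

open MvPolynomial OnePoint Finset

namespace Pool.Agent.MuSym

variable {F : Type} [Field F]

/-- The residues `b` modulo `p ^ n` prime to `p` with `b ^ (p - 1) = c`. -/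
def fibre (p n : ℕ) (c : ZMod (p ^ n)) : Finset ℕ :=
  (range (p ^ n)).filter fun b => ¬ p ∣ b ∧ (b : ZMod (p ^ n)) ^ (p - 1) = c

/-- The coefficient at the class `c` of the `i`-th branch of the measure at level `n`, up to the
`n`-th power of the eigenvalue of `T_p`. -/
noncomputable def branch (p : ℕ) (Φ : OnePoint ℚ → OnePoint ℚ → MvPolynomial (Fin 2) F) (n i : ℕ)
    (c : ZMod (p ^ n)) : F :=
  ∑ b ∈ fibre p n c, (b : F) ^ i * val p Φ n b

variable {p N g : ℕ} {ε : DirichletCharacter F N} {a : F}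
  {Φ : OnePoint ℚ → OnePoint ℚ → MvPolynomial (Fin 2) F}

lemma val_period (hp : p.Prime) (hΦ : IsModSym N g ε Φ) (n : ℕ) (b k : ℤ) :
    val p Φ n (b + p ^ n * k) = val p Φ n b := by
  have hpq : (p : ℚ) ≠ 0 := by exact_mod_cast hp.ne_zero
  have h := f_equiv hΦ 1 k 0 1 (by ring) (dvd_zero _) ∞ ((b / p ^ n : ℚ) : OnePoint ℚ) 0 1
  rw [mob_infty_zero, mob_coe _ _ _ _ (by simp)] at h
  have e : (((1 : ℤ) : ℚ) * (b / p ^ n) + k) / (((0 : ℤ) : ℚ) * (b / p ^ n) + ((1 : ℤ) : ℚ)) =
      ((b + p ^ n * k : ℤ) : ℚ) / p ^ n := by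
    push_cast
    field_simp
    ring
  rw [e] at h
  have e1 : (((1 : ℤ) : F) * 0 + ((0 : ℤ) : F) * 1) = 0 := by simp
  have e2 : ((k : F) * 0 + ((1 : ℤ) : F) * 1) = 1 := by simp
  rw [e1, e2] at h
  unfold val
  rw [h]
  simp

lemma val_neg {s : F} (hs : HasSign s Φ) (n : ℕ) (b : ℤ) :
    val p Φ n (-b) = s * val p Φ n b := by
  have h := congrArg (eval ![0, 1]) (hs ∞ ((b / p ^ n : ℚ) : OnePoint ℚ))
  rw [mob_infty_zero, mob_coe _ _ _ _ (by simp), map_mul, eval_C, eval_act] at h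
  have e : (((-1 : ℤ) : ℚ) * (b / p ^ n) + ((0 : ℤ) : ℚ)) / (((0 : ℤ) : ℚ) * (b / p ^ n) +
      ((1 : ℤ) : ℚ)) = ((-b : ℤ) : ℚ) / p ^ n := by
    push_cast
    ring
  rw [e] at h
  have e1 : (((-1 : ℤ) : F) * 0 + ((0 : ℤ) : F) * 1) = 0 := by simp
  have e2 : (((0 : ℤ) : F) * 0 + ((1 : ℤ) : F) * 1) = 1 := by simp
  rw [e1, e2] at h
  exact h

/-- Two elements of a fibre with the same residue modulo `p` are equal. -/
lemma fibre_inj (hp : p.Prime) {n : ℕ} {c : ZMod (p ^ n)} {b b' : ℕ} (hb : b ∈ fibre p n c)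
    (hb' : b' ∈ fibre p n c) (h : b ≡ b' [MOD p]) : b = b' := by
  simp only [fibre, mem_filter, mem_range] at hb hb'
  obtain ⟨h1, h2, h3⟩ := hb
  obtain ⟨h1', h2', h3'⟩ := hb'
  have hcop : ∀ {x : ℕ}, ¬ p ∣ x → Nat.Coprime x (p ^ n) := fun hx =>
    ((hp.coprime_iff_not_dvd.mpr hx).symm).pow_right n
  have hne : NeZero (p ^ n) := ⟨pow_ne_zero _ hp.ne_zero⟩
  let u : (ZMod (p ^ n))ˣ := ZMod.unitOfCoprime b (hcop h2)
  let u' : (ZMod (p ^ n))ˣ := ZMod.unitOfCoprime b' (hcop h2')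
  have hu : (u : ZMod (p ^ n)) = b := ZMod.coe_unitOfCoprime b (hcop h2)
  have hu' : (u' : ZMod (p ^ n)) = b' := ZMod.coe_unitOfCoprime b' (hcop h2')
  -- the quotient has order dividing `p - 1`
  have hw1 : (u * u'⁻¹) ^ (p - 1) = 1 := by
    have : u ^ (p - 1) = u' ^ (p - 1) := by
      ext
      push_cast
      rw [hu, hu', h3, h3']
    rw [mul_pow, this, inv_pow, mul_inv_cancel]
  -- the quotient has order dividing a power of `p`
  have hw2 : (u * u'⁻¹) ^ (p ^ n) = 1 := by
    have hd : (p : ℤ) ∣ (b : ℤ) - b' := (Int.natCast_modEq_iff.mpr h.symm).dvd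
    have hd' : ((p : ℤ) ^ (n + 1)) ∣ (b : ℤ) ^ p ^ n - (b' : ℤ) ^ p ^ n :=
      dvd_sub_pow_of_dvd_sub hd n
    have hd'' : ((p ^ n : ℕ) : ℤ) ∣ (b : ℤ) ^ p ^ n - (b' : ℤ) ^ p ^ n := by
      push_cast
      exact (pow_dvd_pow _ (Nat.le_succ n)).trans hd'
    have hkey : (b : ZMod (p ^ n)) ^ (p ^ n) = (b' : ZMod (p ^ n)) ^ (p ^ n) := by
      have := (ZMod.intCast_zmod_eq_zero_iff_dvd _ (p ^ n)).mpr hd''
      push_cast at this
      exact sub_eq_zero.mp this
    have : u ^ (p ^ n) = u' ^ (p ^ n) := by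
      ext
      push_cast
      rw [hu, hu', hkey]
    rw [mul_pow, this, inv_pow, mul_inv_cancel]
  have hcop2 : Nat.Coprime (p - 1) (p ^ n) := by
    refine Nat.Coprime.pow_right n ?_
    have := hp.two_le
    have h6 : Nat.Coprime (p - 1) (p - 1 + 1) := by simp
    rwa [Nat.sub_add_cancel (by omega)] at h6
  have hw : u * u'⁻¹ = 1 := by
    have h7 : orderOf (u * u'⁻¹) ∣ p - 1 := orderOf_dvd_of_pow_eq_one hw1
    have h8 : orderOf (u * u'⁻¹) ∣ p ^ n := orderOf_dvd_of_pow_eq_one hw2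
    have h9 := Nat.Coprime.eq_one_of_dvd (Nat.Coprime.coprime_dvd_left h7 hcop2) h8
    exact orderOf_eq_one_iff.mp h9
  have huu : (b : ZMod (p ^ n)) = b' := by
    rw [← hu, ← hu']
    congr 1
    exact mul_inv_eq_one.mp hw
  have := (ZMod.natCast_eq_natCast_iff' _ _ _).mp huu
  rwa [Nat.mod_eq_of_lt h1, Nat.mod_eq_of_lt h1'] at this

/-- The elements of a fibre have different images in a field of characteristic `p`. -/
lemma fibre_cast_inj (hp : p.Prime) [CharP F p] {n : ℕ} {c : ZMod (p ^ n)} {b b' : ℕ}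
    (hb : b ∈ fibre p n c) (hb' : b' ∈ fibre p n c) (h : (b : F) = b') : b = b' :=
  fibre_inj hp hb hb' ((CharP.natCast_eq_natCast F p).mp h)

lemma card_fibre_lt (hp : p.Prime) (n : ℕ) (c : ZMod (p ^ n)) : (fibre p n c).card < p := by
  have h : (fibre p n c).card ≤ ((range p).erase 0).card := by
    refine card_le_card_of_injOn (fun b => b % p) ?_ ?_
    · intro b hb
      simp only [fibre, coe_filter, mem_range, Set.mem_ofPred_eq] at hb
      simp only [coe_erase, coe_range, Set.mem_sdiff, Set.mem_Iio, Set.mem_singleton_iff]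
      exact ⟨Nat.mod_lt _ hp.pos, fun h0 => hb.2.1 (Nat.dvd_of_mod_eq_zero h0)⟩
    · intro b hb b' hb' h
      exact fibre_inj hp hb hb' h
  rw [card_erase_of_mem (mem_range.mpr hp.pos), card_range] at h
  have := hp.pos
  omega

/-- If the measure is not zero, then one of its branches is not zero. -/
lemma exists_branch (hp : p.Prime) [CharP F p] (hΦ : IsModSym N g ε Φ) {n : ℕ} (hn : 1 ≤ n)
    {b : ℤ} (hb : ¬ (p : ℤ) ∣ b) (hv : val p Φ n b ≠ 0) :
    ∃ i < p - 1, ∃ c, branch p Φ n i c ≠ 0 := by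
  have hpos : (0 : ℤ) < (p : ℤ) ^ n := pow_pos (by exact_mod_cast hp.pos) _
  -- the representative in the range
  obtain ⟨b0, hb0⟩ : ∃ b0 : ℕ, (b0 : ℤ) = b % (p : ℤ) ^ n :=
    ⟨(b % (p : ℤ) ^ n).toNat, Int.toNat_of_nonneg (Int.emod_nonneg _ hpos.ne')⟩
  have hlt : b0 < p ^ n := by
    have := Int.emod_lt_of_pos b hpos
    rw [← hb0] at this
    exact_mod_cast this
  have hdiv : b = b0 + (p : ℤ) ^ n * (b / (p : ℤ) ^ n) := by
    rw [hb0]; exact (Int.emod_add_mul_ediv b _).symm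
  have hv0 : val p Φ n b0 ≠ 0 := by
    rw [hdiv, val_period hp hΦ] at hv
    exact hv
  have hb0p : ¬ p ∣ b0 := by
    intro h
    apply hb
    rw [hdiv]
    exact dvd_add (by exact_mod_cast h) ((dvd_pow_self _ (by omega)).mul_right _)
  by_contra hcon
  push Not at hcon
  set c : ZMod (p ^ n) := (b0 : ZMod (p ^ n)) ^ (p - 1) with hc
  have hmem : b0 ∈ fibre p n c := by
    simp only [fibre, mem_filter, mem_range]
    exact ⟨hlt, hb0p, rfl⟩
  -- all polynomials of small degree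
  have hpoly : ∀ Q : Polynomial F, Q.natDegree < p - 1 →
      ∑ b ∈ fibre p n c, Q.eval (b : F) * val p Φ n b = 0 := by
    intro Q hQ
    simp_rw [Polynomial.eval_eq_sum_range, sum_mul]
    rw [sum_comm]
    refine sum_eq_zero fun i hi => ?_
    have hi' : i < p - 1 := by
      have := mem_range.mp hi
      omega
    have := hcon i hi' c
    unfold branch at this
    simp_rw [mul_assoc]
    rw [← mul_sum, this, mul_zero]
  set Q : Polynomial F := ∏ b ∈ (fibre p n c).erase b0, (Polynomial.X - Polynomial.C (b : F))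
    with hQ
  have hdeg : Q.natDegree < p - 1 := by
    rw [hQ, Polynomial.natDegree_prod_of_monic _ _ fun b _ => Polynomial.monic_X_sub_C _]
    simp only [Polynomial.natDegree_X_sub_C, sum_const, smul_eq_mul, mul_one]
    rw [card_erase_of_mem hmem]
    have := card_fibre_lt hp n c
    have h1 : 0 < (fibre p n c).card := card_pos.mpr ⟨b0, hmem⟩
    omega
  have h := hpoly Q hdeg
  rw [sum_eq_single_of_mem b0 hmem] at h
  · rcases mul_eq_zero.mp h with h | h
    · rw [hQ, Polynomial.eval_prod, prod_eq_zero_iff] at h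
      obtain ⟨b', hb', h'⟩ := h
      rw [mem_erase] at hb'
      rw [Polynomial.eval_sub, Polynomial.eval_X, Polynomial.eval_C, sub_eq_zero] at h'
      exact hb'.1 (fibre_cast_inj hp hmem hb'.2 h').symm
    · exact hv0 h
  · intro b' hb' hne
    have : Q.eval (b' : F) = 0 := by
      rw [hQ, Polynomial.eval_prod]
      refine prod_eq_zero (mem_erase.mpr ⟨hne, hb'⟩) ?_
      simp
    rw [this, zero_mul]

/-- The branches of the wrong parity vanish. -/
lemma branch_parity (hp : p.Prime) (hp2 : p ≠ 2) [CharP F p] (hΦ : IsModSym N g ε Φ) {s : F}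
    (hs : HasSign s Φ) {n i : ℕ} (hi : (-1) ^ i ≠ s) (c : ZMod (p ^ n)) :
    branch p Φ n i c = 0 := by
  rcases Nat.eq_zero_or_pos n with hn | hn
  · subst hn
    unfold branch
    refine sum_eq_zero fun b hb => ?_
    simp only [fibre, mem_filter, mem_range, pow_zero, Nat.lt_one_iff] at hb
    exact absurd (hb.1 ▸ dvd_zero p) hb.2.1
  have heven : Even (p - 1) := hp.even_sub_one hp2
  have hmem : ∀ b ∈ fibre p n c, p ^ n - b ∈ fibre p n c := by
    intro b hb
    simp only [fibre, mem_filter, mem_range] at hb ⊢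
    obtain ⟨h1, h2, h3⟩ := hb
    have hb0 : 0 < b := Nat.pos_of_ne_zero fun h => h2 (h ▸ dvd_zero p)
    refine ⟨by omega, fun h => h2 ?_, ?_⟩
    · have h4 : p ∣ p ^ n := dvd_pow_self _ hn.ne'
      have := (Nat.dvd_sub_iff_right h1.le h4).mp h
      exact this
    · rw [← h3, Nat.cast_sub h1.le]
      have : ((p ^ n : ℕ) : ZMod (p ^ n)) = 0 := ZMod.natCast_self _
      rw [this, zero_sub, heven.neg_pow]
  have hval : branch p Φ n i c = (-1) ^ i * s * branch p Φ n i c := by
    have h1 : branch p Φ n i c = ∑ b ∈ fibre p n c, ((p ^ n - b : ℕ) : F) ^ i *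
        val p Φ n ((p ^ n - b : ℕ) : ℤ) := by
      unfold branch
      refine sum_nbij' (fun b => p ^ n - b) (fun b => p ^ n - b) hmem hmem ?_ ?_ ?_
      · intro b hb
        simp only [fibre, mem_filter, mem_range] at hb
        omega
      · intro b hb
        simp only [fibre, mem_filter, mem_range] at hb
        omega
      · intro b hb
        simp only [fibre, mem_filter, mem_range] at hb
        have : p ^ n - (p ^ n - b) = b := by omega
        rw [this]
    refine h1.trans ?_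
    unfold branch
    rw [mul_sum]
    refine sum_congr rfl fun b hb => ?_
    simp only [fibre, mem_filter, mem_range] at hb
    have e1 : (((p ^ n - b : ℕ) : ℕ) : F) = -(b : F) := by
      rw [Nat.cast_sub hb.1.le]
      push_cast
      rw [CharP.cast_eq_zero F p, zero_pow hn.ne', zero_sub]
    have e2 : ((p ^ n - b : ℕ) : ℤ) = -(b : ℤ) + (p : ℤ) ^ n * 1 := by
      rw [Nat.cast_sub hb.1.le]
      push_cast
      ring
    rw [e1, e2, val_period hp hΦ, val_neg hs, neg_pow]
    ring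
  have h2 : (1 - (-1) ^ i * s) * branch p Φ n i c = 0 := by
    rw [sub_mul, one_mul, ← hval, sub_self]
  rcases mul_eq_zero.mp h2 with h | h
  · exfalso
    apply hi
    rcases neg_one_pow_eq_or F i with h' | h'
    · rw [h', one_mul] at h
      rw [h']
      exact (sub_eq_zero.mp h)
    · rw [h'] at h ⊢
      linear_combination (-1 : F) * h
  · exact h

/-- For an odd prime `p` and a symbol of sign `s` whose measure is not zero, some branch of the
parity given by `s` is not zero. -/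
lemma exists_branch_sign (hp : p.Prime) (hp2 : p ≠ 2) [CharP F p] (hΦ : IsModSym N g ε Φ) {s : F}
    (hs : HasSign s Φ) {n : ℕ} (hn : 1 ≤ n) {b : ℤ} (hb : ¬ (p : ℤ) ∣ b)
    (hv : val p Φ n b ≠ 0) : ∃ i < p - 1, (-1) ^ i = s ∧ ∃ c, branch p Φ n i c ≠ 0 := by
  obtain ⟨i, hi, c, hc⟩ := exists_branch hp hΦ hn hb hv
  refine ⟨i, hi, ?_, c, hc⟩
  by_contra h
  exact hc (branch_parity hp hp2 hΦ hs h c)

/-- For `p = 3` and a symbol of sign `(-1) ^ i` whose measure is not zero, the `i`-th branch is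
not zero (it is the only branch of this parity). -/
lemma branch_three [CharP F 3] (hΦ : IsModSym N g ε Φ) {i : ℕ} (hi : i < 2)
    (hs : HasSign ((-1) ^ i) Φ) {n : ℕ} (hn : 1 ≤ n) {b : ℤ} (hb : ¬ (3 : ℤ) ∣ b)
    (hv : val 3 Φ n b ≠ 0) : ∃ c, branch 3 Φ n i c ≠ 0 := by
  obtain ⟨j, hj, hjs, c, hc⟩ := exists_branch_sign Nat.prime_three (by norm_num) hΦ hs hn
    (by exact_mod_cast hb) hv
  have hne : (-1 : F) ≠ 1 := by
    intro h
    have h2 : (2 : F) = 0 := by linear_combination -h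
    have h3 : ((2 : ℕ) : F) = 0 := by exact_mod_cast h2
    rw [CharP.cast_eq_zero_iff F 3] at h3
    omega
  have hij : j = i := by
    have hj' : j < 2 := hj
    rcases (by omega : (j = 0 ∨ j = 1) ∧ (i = 0 ∨ i = 1)) with ⟨rfl | rfl, rfl | rfl⟩
    · rfl
    · exact absurd (by simpa using hjs.symm) hne
    · exact absurd (by simpa using hjs) hne
    · rfl
  exact ⟨c, hij ▸ hc⟩

end Pool.Agent.MuSym
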