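import Pool.Agent.MuSym.LevelP

/-!
An eigenfunction of `U_p` with a nonzero eigenvalue which is equivariant at a level divisible by
`p ^ (s + 1)` is equivariant at the level divided by `p`, for `s ≥ 1`.
-/

open Finset

namespace Pool.Agent.MuSym

variable {F : Type} [Field F] {p : ℕ} {χ : ℤ → F} {ψ : ℚ → ℚ → F}

lemma sum_affine (hp : p.Prime) {f : ℤ → F} (hf : ∀ k, f (k + p) = f k) (u w : ℤ)
    (hu : ¬ (p : ℤ) ∣ u) : ∑ j ∈ range p, f (w + u * j) = ∑ j ∈ range p, f j := by
  have : Fact p.Prime := ⟨hp⟩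
  have per : ∀ (k x : ℤ), f (x + p * k) = f x := by
    intro k
    induction k using Int.induction_on with
    | zero => intro x; simp
    | succ n ih =>
      intro x
      rw [show x + p * (n + 1) = (x + p * n) + p by ring, hf, ih]
    | pred n ih =>
      intro x
      have := hf (x + p * (-(n : ℤ) - 1))
      rw [show x + p * (-(n : ℤ) - 1) + p = x + p * -(n : ℤ) by ring, ih] at this
      exact this.symm
  let h : ZMod p → F := fun z => f (z.val : ℤ)
  have hh : ∀ x : ℤ, f x = h (x : ZMod p) := by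
    intro x
    change f x = f (((x : ZMod p).val : ℕ) : ℤ)
    rw [ZMod.val_intCast]
    have h1 := Int.emod_add_mul_ediv x p
    have h2 := per (x / p) (x % p)
    rw [h1] at h2
    exact h2
  have hsum : ∀ k : ZMod p → F, ∑ j ∈ range p, k ((j : ℕ) : ZMod p) = ∑ z : ZMod p, k z := by
    intro k
    refine Finset.sum_nbij' (fun j => ((j : ℕ) : ZMod p)) (fun z => z.val) ?_ ?_ ?_ ?_ ?_
    · intro j _
      exact mem_univ _
    · intro z _
      exact mem_range.mpr (ZMod.val_lt z)
    · intro j hj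
      exact ZMod.val_cast_of_lt (mem_range.mp hj)
    · intro z _
      exact ZMod.natCast_zmod_val z
    · intro j _
      rfl
  have hu0 : (u : ZMod p) ≠ 0 := by
    intro hcon
    exact hu ((ZMod.intCast_zmod_eq_zero_iff_dvd u p).mp hcon)
  calc ∑ j ∈ range p, f (w + u * j)
      = ∑ j ∈ range p, (fun z : ZMod p => h ((w : ZMod p) + (u : ZMod p) * z))
          ((j : ℕ) : ZMod p) := by
        apply sum_congr rfl
        intro j _
        rw [hh]
        congr 1
        push_cast
        ring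
    _ = ∑ z : ZMod p, h ((w : ZMod p) + (u : ZMod p) * z) :=
        hsum (fun z : ZMod p => h ((w : ZMod p) + (u : ZMod p) * z))
    _ = ∑ z : ZMod p, h z := by
        apply Fintype.sum_bijective (fun z => (w : ZMod p) + (u : ZMod p) * z)
        · constructor
          · intro z z' hz
            simp only [add_right_inj] at hz
            exact mul_left_cancel₀ hu0 hz
          · intro z
            refine ⟨(u : ZMod p)⁻¹ * (z - w), ?_⟩
            simp only
            rw [← mul_assoc, mul_inv_cancel₀ hu0]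
            ring
        · intro z
          rfl
    _ = ∑ j ∈ range p, f j := by
        rw [← hsum]
        apply sum_congr rfl
        intro j _
        rw [hh]
        simp

theorem level_down (hp : p.Prime) {M : ℕ} {a : F} (ha : a ≠ 0) (hpM : p ∣ M)
    (hE : Eqv (p * M) χ ψ) (hχ1 : χ 1 = 1) (hχ : ∀ d d' : ℤ, (M : ℤ) ∣ d - d' → χ d = χ d')
    (hT : ∀ x y, a * ψ x y = ∑ j ∈ range p, ψ ((x + j) / p) ((y + j) / p)) : Eqv M χ ψ := by
  intro A B C D hdet hC x y hx hy
  have hp0 : (p : ℤ) ≠ 0 := by exact_mod_cast hp.ne_zero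
  have hpQ : (p : ℚ) ≠ 0 := by exact_mod_cast hp.ne_zero
  have hpp : Prime (p : ℤ) := Nat.prime_iff_prime_int.mp hp
  have hpC : (p : ℤ) ∣ C := dvd_trans (by exact_mod_cast hpM) hC
  obtain ⟨C', hC'⟩ := hpC
  have hpD : ¬ (p : ℤ) ∣ D := by
    intro hcon
    apply hpp.not_isUnit
    apply isUnit_of_dvd_one
    rw [← hdet]
    exact dvd_sub (hcon.mul_left _) ((Dvd.intro _ hC'.symm).mul_left _)
  apply mul_left_cancel₀ ha
  have hper : ∀ k : ℤ, ψ ((x + ((k + p : ℤ) : ℚ)) / p) ((y + ((k + p : ℤ) : ℚ)) / p) =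
      ψ ((x + (k : ℚ)) / p) ((y + (k : ℚ)) / p) := by
    intro k
    have h1 := hE 1 1 0 1 (by ring) (dvd_zero _) ((x + (k : ℚ)) / p) ((y + (k : ℚ)) / p)
      (by simp) (by simp)
    simp only [Int.cast_one, Int.cast_zero, one_mul, zero_mul, zero_add, div_one, hχ1] at h1
    rw [← h1]
    congr 1
    · push_cast
      field_simp
      ring
    · push_cast
      field_simp
      ring
  have hterm : ∀ j ∈ range p, ψ (((A * x + B) / (C * x + D) + j) / p)
      (((A * y + B) / (C * y + D) + j) / p) =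
      χ D * ψ ((x + ((D * B + D ^ 2 * j : ℤ) : ℚ)) / p) ((y + ((D * B + D ^ 2 * j : ℤ) : ℚ)) / p) := by
    intro j _
    obtain ⟨k, hk⟩ : ∃ k : ℤ, k = D * B + D ^ 2 * j := ⟨_, rfl⟩
    rw [← hk]
    have hdet' : (A + j * C) * (D - k * C) - (-(C' * (B + j * D) ^ 2)) * (p * C) = 1 := by
      rw [hk]
      linear_combination (1 - C * (B + j * D)) * hdet - (C * (B + j * D) ^ 2) * hC'
    have hMC : ((p * M : ℕ) : ℤ) ∣ p * C := by
      push_cast
      exact mul_dvd_mul_left _ hC
    have hdetQ : (A : ℚ) * D - B * C = 1 := by exact_mod_cast hdet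
    have hCQ : (C : ℚ) = p * C' := by exact_mod_cast hC'
    have hkQ : (k : ℚ) = D * B + D ^ 2 * j := by
      rw [hk]
      push_cast
      ring
    have e1 : ∀ z : ℚ, ((p * C : ℤ) : ℚ) * ((z + k) / p) + ((D - k * C : ℤ) : ℚ) = C * z + D := by
      intro z
      push_cast
      field_simp
      ring
    have e2 : ∀ z : ℚ, (C : ℚ) * z + D ≠ 0 →
        (((A + j * C : ℤ) : ℚ) * ((z + k) / p) + ((-(C' * (B + j * D) ^ 2) : ℤ) : ℚ)) /
          (((p * C : ℤ) : ℚ) * ((z + k) / p) + ((D - k * C : ℤ) : ℚ)) =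
        ((A * z + B) / (C * z + D) + j) / p := by
      intro z hz
      rw [e1 z, div_eq_div_iff hz hpQ, div_add' _ _ _ hz, div_mul_cancel₀ _ hz]
      push_cast
      field_simp
      rw [hkQ]
      linear_combination (D * j + B) * hdetQ + (B + j * D) ^ 2 * hCQ
    have h1 := hE (A + j * C) (-(C' * (B + j * D) ^ 2)) (p * C) (D - k * C) hdet' hMC
      ((x + (k : ℚ)) / p) ((y + (k : ℚ)) / p) (by rw [e1]; exact hx) (by rw [e1]; exact hy)
    rw [e2 x hx, e2 y hy] at h1
    rw [h1]
    congr 1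
    apply hχ
    rw [sub_sub_cancel_left]
    exact (hC.mul_left _).neg_right
  rw [hT, sum_congr rfl hterm, ← mul_sum,
    sum_affine hp (f := fun k : ℤ => ψ ((x + (k : ℚ)) / p) ((y + (k : ℚ)) / p)) hper (D ^ 2)
      (D * B) (fun h => hpD (hpp.dvd_of_dvd_pow h))]
  have h2 := hT x y
  simp only [Int.cast_natCast]
  rw [← h2]
  ring

theorem level_down_all (hp : p.Prime) {N' : ℕ} {a : F} (ha : a ≠ 0) (hχ1 : χ 1 = 1)
    (hχ : ∀ d d' : ℤ, ((p * N' : ℕ) : ℤ) ∣ d - d' → χ d = χ d')
    (hT : ∀ x y, a * ψ x y = ∑ j ∈ range p, ψ ((x + j) / p) ((y + j) / p)) (s : ℕ)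
    (hE : Eqv (p ^ (s + 1) * N') χ ψ) : Eqv (p * N') χ ψ := by
  induction s with
  | zero => simpa using hE
  | succ s ih =>
    apply ih
    apply level_down hp ha ((dvd_pow_self p (Nat.succ_ne_zero s)).mul_right N') _ hχ1 _ hT
    · have : p * (p ^ (s + 1) * N') = p ^ (s + 1 + 1) * N' := by ring
      rw [this]
      exact hE
    · intro d d' h
      apply hχ
      refine dvd_trans ?_ h
      push_cast
      exact mul_dvd_mul_right (dvd_pow_self _ (Nat.succ_ne_zero s)) _

end Pool.Agent.MuSym
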