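import Pool.Agent.MuSym.Red
import Pool.Agent.MuSym.Base
import Pool.Agent.MuSym.Trick

/-!
The conclusion: an ordinary eigensymbol whose values on the paths from `∞` to `b / p ^ n` vanish
is a boundary symbol.
-/

open MvPolynomial OnePoint Finset

namespace Pool.Agent.MuSym

variable {F : Type} [Field F] {p N g : ℕ} {ε : DirichletCharacter F N} {a : F}
  {Φ : OnePoint ℚ → OnePoint ℚ → MvPolynomial (Fin 2) F}

/-- A matrix of `Γ₀(N)` whose lower row is `(1, v)` modulo `p` and avoids two values. -/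
lemma exists_row (hp : p.Prime) (hN : N ≠ 0) (hpN : p.Coprime N) (v : ℤ) (y : ℚ) :
    ∃ α β' c d : ℤ, α * d - β' * c = 1 ∧ (N : ℤ) ∣ c ∧ (p : ℤ) ∣ c - 1 ∧ (p : ℤ) ∣ d - v ∧
      d ≠ 0 ∧ (c : ℚ) * y + d ≠ 0 := by
  have hp0 : (p : ℤ) ≠ 0 := by exact_mod_cast hp.ne_zero
  have hN0 : (N : ℤ) ≠ 0 := by exact_mod_cast hN
  have hcop : IsCoprime (p : ℤ) (N : ℤ) := Nat.isCoprime_iff_coprime.mpr hpN
  -- `c = N ^ φ(p)`
  have hc1 : (p : ℤ) ∣ ((N : ℤ) ^ (Nat.totient p)) - 1 := by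
    have h := Nat.ModEq.pow_totient hpN.symm
    have h3 := Nat.modEq_iff_dvd.mp h.symm
    push_cast at h3
    exact h3
  have htot : Nat.totient p ≠ 0 := (Nat.totient_pos.mpr hp.pos).ne'
  obtain ⟨s, t, hst⟩ := hcop
  -- `d0 ≡ v (mod p)`, `d0 ≡ 1 (mod N)`
  obtain ⟨d0, hd0v, hd0N⟩ : ∃ d0 : ℤ, (p : ℤ) ∣ d0 - v ∧ (N : ℤ) ∣ d0 - 1 := by
    refine ⟨v * t * N + s * p, ?_, ?_⟩
    · refine ⟨s * (1 - v), ?_⟩
      linear_combination v * hst
    · refine ⟨(v - 1) * t, ?_⟩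
      linear_combination hst
  -- avoid two values
  obtain ⟨k, hk1, hk2⟩ : ∃ k : ℤ, d0 + k * (p * N) ≠ 0 ∧
      ((((N : ℤ) ^ (Nat.totient p) : ℤ)) : ℚ) * y + ((d0 + k * (p * N) : ℤ) : ℚ) ≠ 0 := by
    have hpN0 : (p : ℤ) * N ≠ 0 := mul_ne_zero hp0 hN0
    have hpN0' : ((p : ℚ) * N) ≠ 0 := by exact_mod_cast hpN0
    by_contra hcon
    push Not at hcon
    have hinj : ∀ k l : ℤ, d0 + k * (p * N) = d0 + l * (p * N) → k = l := by
      intro k l h
      exact mul_right_cancel₀ hpN0 (by linarith)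
    by_cases h0 : d0 + 0 * ((p : ℤ) * N) = 0
    · have h1 : d0 + 1 * ((p : ℤ) * N) ≠ 0 := by
        intro h
        have := hinj 0 1 (by rw [h0, h])
        omega
      have h2 : d0 + 2 * ((p : ℤ) * N) ≠ 0 := by
        intro h
        have := hinj 0 2 (by rw [h0, h])
        omega
      have h3 := hcon 1 h1
      have h4 := hcon 2 h2
      apply hpN0'
      push_cast at h3 h4
      linarith
    · by_cases h1 : d0 + 1 * ((p : ℤ) * N) = 0
      · have h2 : d0 + 2 * ((p : ℤ) * N) ≠ 0 := by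
          intro h
          have := hinj 1 2 (by rw [h1, h])
          omega
        have h3 := hcon 0 h0
        have h4 := hcon 2 h2
        apply hpN0'
        push_cast at h3 h4
        linarith
      · have h3 := hcon 0 h0
        have h4 := hcon 1 h1
        apply hpN0'
        push_cast at h3 h4
        linarith
  have hdN : IsCoprime (d0 + k * (p * N)) ((N : ℤ) ^ (Nat.totient p)) := by
    apply IsCoprime.pow_right
    obtain ⟨m, hm⟩ := hd0N
    refine ⟨1, -(m + k * p), ?_⟩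
    linear_combination hm
  obtain ⟨α, β', hαβ⟩ := hdN
  refine ⟨α, -β', (N : ℤ) ^ (Nat.totient p), d0 + k * (p * N), by linear_combination hαβ,
    dvd_pow_self _ htot, hc1, ?_, hk1, hk2⟩
  obtain ⟨m, hm⟩ := hd0v
  exact ⟨m + k * N, by linear_combination hm⟩

/-- The boundary form at the cusp `β / δ`. -/
noncomputable def bform (ε : DirichletCharacter F N) (g : ℕ) (β δ : ℤ) :
    MvPolynomial (Fin 2) F :=
  C (ε δ) * (C (β : F) * X 0 + C (δ : F) * X 1) ^ g

lemma bform_homog (ε : DirichletCharacter F N) (g : ℕ) (β δ : ℤ) :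
    (bform ε g β δ).IsHomogeneous g := by
  unfold bform
  have h1 : (C (β : F) * X 0 + C (δ : F) * X 1 : MvPolynomial (Fin 2) F).IsHomogeneous 1 := by
    apply IsHomogeneous.add
    · simpa using (isHomogeneous_C (Fin 2) (β : F)).mul (isHomogeneous_X F 0)
    · simpa using (isHomogeneous_C (Fin 2) (δ : F)).mul (isHomogeneous_X F 1)
  have h2 := (isHomogeneous_C (Fin 2) (ε δ)).mul (h1.pow g)
  simpa using h2

lemma bform_eval (ε : DirichletCharacter F N) (g : ℕ) (β δ : ℤ) (u v : F) :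
    eval ![u, v] (bform ε g β δ) = ε δ * (β * u + δ * v) ^ g := by
  simp [bform]

variable (hΦ : IsModSym N g ε Φ) (hval : ∀ n, 1 ≤ n → ∀ b : ℤ, ¬ (p : ℤ) ∣ b → val p Φ n b = 0)

include hΦ in
lemma psi_bform (β δ : ℤ) (hδ : δ ≠ 0) (hcop : IsCoprime β δ) (u v : F) :
    psi ε g Φ 0 (β / δ) u v = eval ![u, v] (Φ ((0 : ℚ) : OnePoint ℚ) ((β / δ : ℚ) : OnePoint ℚ) -
      C (phi0 Φ) * (bform ε g β δ - bform ε g 0 1)) := by
  unfold psi
  rw [map_sub, map_mul, map_sub, eval_C, bform_eval, bform_eval]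
  rcases sign_cond hΦ with h0 | h0
  · rw [h0]; ring
  · rw [Bq_eq ε g h0 hδ hcop]
    have h1 := Bq_int ε g 0 u v
    rw [Int.cast_zero] at h1
    rw [h1]
    simp

include hΦ hval in
/-- The full Hecke relation for the corrected symbol. -/
lemma psi_T_full (hp : p.Prime) [CharP F p] (hg : 1 ≤ g ∨ p ∣ N)
    (hT : ∀ x y, heckeT p N ε Φ x y = C a * Φ x y) (x y : ℚ) (u v : F) :
    a * psi ε g Φ x y u v =
      ∑ j ∈ range p, (v - j * u) ^ g * psi ε g Φ ((x + j) / p) ((y + j) / p) 0 1 +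
      ε p * (u ^ g * psi ε g Φ (p * x) (p * y) 1 0) := by
  have h1 := kk_T hΦ hval hp hg hT x u v
  have h2 := kk_T hΦ hval hp hg hT y u v
  have h3 : ∑ j ∈ range p, (v - j * u) ^ g * psi ε g Φ ((x + j) / p) ((y + j) / p) 0 1 =
      ∑ j ∈ range p, (v - j * u) ^ g * kk ε g Φ ((y + j) / p) 0 1 -
      ∑ j ∈ range p, (v - j * u) ^ g * kk ε g Φ ((x + j) / p) 0 1 := by
    rw [← sum_sub_distrib]
    apply sum_congr rfl
    intro j _
    rw [psi_inf hΦ]
    ring
  rw [h3, psi_inf hΦ, psi_inf hΦ]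
  linear_combination h2 - h1

/-- A rational number `A / B` with `B` prime to `N` has a denominator prime to `N`. -/
lemma lowest (A B : ℤ) (hBN : IsCoprime B (N : ℤ)) (_hB : B ≠ 0) :
    ∃ β δ : ℤ, δ ≠ 0 ∧ IsCoprime δ (β * N) ∧ ((A : ℚ) / B) = (β : ℚ) / δ := by
  refine ⟨((A : ℚ) / B).num, (((A : ℚ) / B).den : ℤ), ?_, ?_, ?_⟩
  · exact_mod_cast ((A : ℚ) / B).den_ne_zero
  · apply IsCoprime.mul_right
    · rw [isCoprime_comm, Int.isCoprime_iff_nat_coprime]
      simpa using ((A : ℚ) / B).reduced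
    · have h1 : (((A : ℚ) / B).den : ℤ) ∣ B := by
        have := Rat.den_dvd A B
        rwa [Rat.divInt_eq_div] at this
      exact IsCoprime.of_isCoprime_of_dvd_left hBN h1
  · push_cast
    exact (Rat.num_div_den _).symm

include hΦ hval in
lemma psi_cop (hp : p.Prime) [CharP F p] (hpN : p.Coprime N) (hg : 1 ≤ g ∨ p ∣ N) (ha : a ≠ 0)
    (hT : ∀ x y, heckeT p N ε Φ x y = C a * Φ x y) (A B : ℤ)
    (hB : B ≠ 0) (hBN : IsCoprime B (N : ℤ)) : psi ε g Φ 0 (A / B) 0 1 = 0 := by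
  obtain ⟨β, δ, hδ, hcop, h⟩ := lowest A B hBN hB
  rw [h]
  exact psi_zero hΦ hval hp hpN hg ha hT β δ hδ hcop

include hΦ hval in
lemma psi_cop2 (hp : p.Prime) [CharP F p] (hpN : p.Coprime N) (hg : 1 ≤ g ∨ p ∣ N) (ha : a ≠ 0)
    (hT : ∀ x y, heckeT p N ε Φ x y = C a * Φ x y) (A B A' B' : ℤ)
    (hB : B ≠ 0) (hBN : IsCoprime B (N : ℤ)) (hB' : B' ≠ 0) (hBN' : IsCoprime B' (N : ℤ)) :
    psi ε g Φ (A / B) (A' / B') 0 1 = 0 := by
  have h1 := psi_add hΦ 0 (A / B : ℚ) (A' / B' : ℚ) 0 1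
  rw [psi_cop hΦ hval hp hpN hg ha hT A B hB hBN, psi_cop hΦ hval hp hpN hg ha hT A' B' hB' hBN',
    zero_add] at h1
  exact h1

include hΦ hval in
lemma psi_cop_one (hp : p.Prime) [CharP F p] (hN : N ≠ 0) (hpN : p.Coprime N) (hg : 1 ≤ g ∨ p ∣ N)
    (ha : a ≠ 0) (hT : ∀ x y, heckeT p N ε Φ x y = C a * Φ x y) (β δ : ℤ)
    (hδ : δ ≠ 0) (hδN : IsCoprime δ (N : ℤ)) : psi ε g Φ 0 (β / δ) 1 0 = 0 := by
  obtain ⟨α, β', c, d, hdet, hNc, hpc, hpd, hd, hcd⟩ := exists_row hp hN hpN 0 (β / δ : ℚ)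
  have hE := psi_equi hΦ α β' c d hdet hNc 0 (β / δ : ℚ) (by simpa using hd) hcd 0 1
  have hδQ : (δ : ℚ) ≠ 0 := by exact_mod_cast hδ
  have hcF : (c : F) = 1 := by
    have := (CharP.intCast_eq_zero_iff F p (c - 1)).mpr hpc
    push_cast at this
    linear_combination this
  have hdF : (d : F) = 0 := by
    have := (CharP.intCast_eq_zero_iff F p (d - 0)).mpr hpd
    push_cast at this
    linear_combination this
  have hdN : IsCoprime d (N : ℤ) := by
    obtain ⟨m, hm⟩ := hNc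
    refine ⟨α, -(β' * m), ?_⟩
    linear_combination hdet + β' * hm
  have hV : c * β + d * δ ≠ 0 := by
    intro h
    apply hcd
    have : (c : ℚ) * (β / δ) + d = ((c * β + d * δ : ℤ) : ℚ) / δ := by
      push_cast
      field_simp
    rw [this, h, Int.cast_zero, zero_div]
  have hVN : IsCoprime (c * β + d * δ) (N : ℤ) := by
    obtain ⟨m, hm⟩ := hNc
    have h1 : IsCoprime (d * δ) (N : ℤ) := IsCoprime.mul_left hdN hδN
    rw [hm]
    have h2 : (N : ℤ) * m * β + d * δ = d * δ + N * (m * β) := by ring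
    rw [h2]
    exact h1.add_mul_left_left (m * β)
  have e1 : ((α : ℚ) * 0 + β') / (c * 0 + d) = (β' : ℚ) / d := by simp
  have e2 : ((α : ℚ) * (β / δ) + β') / (c * (β / δ) + d) =
      ((α * β + β' * δ : ℤ) : ℚ) / ((c * β + d * δ : ℤ) : ℚ) := by
    have hV' : ((c * β + d * δ : ℤ) : ℚ) ≠ 0 := by exact_mod_cast hV
    rw [div_eq_div_iff hcd hV']
    push_cast
    field_simp
  rw [e1, e2, psi_cop2 hΦ hval hp hpN hg ha hT β' d _ _ hd hdN hV hVN] at hE
  simp only [mul_zero, mul_one, zero_add, hcF, hdF] at hE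
  have hεd : ε d ≠ 0 := by
    have hu : IsUnit (d : ZMod N) := by
      obtain ⟨s, t, hst⟩ := hdN
      refine IsUnit.of_mul_eq_one (s : ZMod N) ?_
      have := congrArg (Int.cast : ℤ → ZMod N) hst
      push_cast at this
      rw [ZMod.natCast_self, mul_zero, add_zero] at this
      rw [mul_comm]
      exact this
    exact (hu.map ε).ne_zero
  exact (mul_eq_zero.mp hE.symm).resolve_left hεd

include hΦ hval in
/-- The corrected symbol vanishes on the cusps in the orbit of `0`. -/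
lemma psi_uv (hp : p.Prime) [CharP F p] (hN : N ≠ 0) (hpN : p.Coprime N) (hg : 1 ≤ g ∨ p ∣ N)
    (ha : a ≠ 0) (hT : ∀ x y, heckeT p N ε Φ x y = C a * Φ x y) (β δ : ℤ)
    (hδ : δ ≠ 0) (hδN : IsCoprime δ (N : ℤ)) (u v : F) : psi ε g Φ 0 (β / δ) u v = 0 := by
  have hp0 : (p : ℤ) ≠ 0 := by exact_mod_cast hp.ne_zero
  have hpQ : (p : ℚ) ≠ 0 := by exact_mod_cast hp.ne_zero
  have hpNZ : IsCoprime (p : ℤ) (N : ℤ) := Nat.isCoprime_iff_coprime.mpr hpN
  have h := psi_T_full hΦ hval hp hg hT 0 (β / δ : ℚ) u v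
  have h1 : ∀ j ∈ range p, (v - j * u) ^ g *
      psi ε g Φ ((0 + (j : ℚ)) / p) ((β / δ + j) / p) 0 1 = 0 := by
    intro j _
    have hδQ : (δ : ℚ) ≠ 0 := by exact_mod_cast hδ
    have e1 : (0 + (j : ℚ)) / p = ((j : ℤ) : ℚ) / ((p : ℤ) : ℚ) := by
      push_cast
      rw [zero_add]
    have e2 : ((β : ℚ) / δ + j) / p = ((β + j * δ : ℤ) : ℚ) / ((p * δ : ℤ) : ℚ) := by
      push_cast
      field_simp
    rw [e1, e2, psi_cop2 hΦ hval hp hpN hg ha hT _ _ _ _ hp0 hpNZ (mul_ne_zero hp0 hδ)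
      (hpNZ.mul_left hδN), mul_zero]
  have h2 : psi ε g Φ ((p : ℚ) * 0) (p * (β / δ)) 1 0 = 0 := by
    have e1 : (p : ℚ) * ((β : ℚ) / δ) = ((p * β : ℤ) : ℚ) / (δ : ℚ) := by
      push_cast
      ring
    rw [mul_zero, e1]
    exact psi_cop_one hΦ hval hp hN hpN hg ha hT _ δ hδ hδN
  rw [sum_eq_zero h1, h2, mul_zero, mul_zero, add_zero] at h
  exact (mul_eq_zero.mp h).resolve_left ha

lemma psi_homog (hΦ : IsModSym N g ε Φ) (x y : ℚ) (t u v : F) :
    psi ε g Φ x y (t * u) (t * v) = t ^ g * psi ε g Φ x y u v := by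
  unfold psi Bq
  rw [eval_smul_homog (hΦ.homog _ _)]
  have h : ∀ n m : F, (n * (t * u) + m * (t * v)) ^ g = t ^ g * (n * u + m * v) ^ g := by
    intro n m
    rw [← mul_pow]
    ring
  rw [h, h]
  ring

/-- The character `ε ω ^ g` depends on the class modulo the prime-to-`p` part of `N` times `p`. -/
lemma chi_congr (hp : p.Prime) [CharP F p] (ε : DirichletCharacter F N) (g : ℕ) {r N' : ℕ}
    (hN : N = p ^ r * N') (hpN' : p.Coprime N') (d d' : ℤ) (h : ((p * N' : ℕ) : ℤ) ∣ d - d') :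
    ε d * (d : F) ^ g = ε d' * (d' : F) ^ g := by
  have hpd : (p : ℤ) ∣ d - d' := dvd_trans ⟨(N' : ℤ), by push_cast; ring⟩ h
  have hN'd : (N' : ℤ) ∣ d - d' := dvd_trans ⟨(p : ℤ), by push_cast; ring⟩ h
  have h1 : (d : F) = (d' : F) := by
    have := (CharP.intCast_eq_zero_iff F p (d - d')).mpr hpd
    push_cast at this
    exact sub_eq_zero.mp this
  have h2 : (N : ℤ) ∣ d ^ p ^ r - d' ^ p ^ r := by
    rw [hN]
    push_cast
    apply IsCoprime.mul_dvd
    · exact (Nat.isCoprime_iff_coprime.mpr hpN').pow_left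
    · exact dvd_trans (pow_dvd_pow _ (Nat.le_succ r)) (dvd_sub_pow_of_dvd_sub hpd r)
    · exact dvd_trans hN'd (sub_dvd_pow_sub_pow _ _ _)
  have h3 : ε d ^ p ^ r = ε d' ^ p ^ r := by
    rw [← map_pow, ← map_pow]
    congr 1
    have := (ZMod.intCast_zmod_eq_zero_iff_dvd _ N).mpr h2
    push_cast at this
    exact sub_eq_zero.mp this
  have : Fact p.Prime := ⟨hp⟩
  have h4 : (ε d - ε d') ^ p ^ r = 0 := by
    rw [sub_pow_char_pow, h3, sub_self]
  rw [h1, sub_eq_zero.mp (pow_eq_zero_iff (pow_ne_zero r hp.ne_zero) |>.mp h4)]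

include hΦ hval in
/-- The case of a level divisible by `p`. -/
lemma psi_zeroP (hp : p.Prime) [CharP F p] (hN : N ≠ 0) (hpN : p ∣ N) (ha : a ≠ 0)
    (hT : ∀ x y, heckeT p N ε Φ x y = C a * Φ x y) :
    ∃ N' : ℕ, N' ∣ N ∧ p.Coprime N' ∧ ∀ β δ : ℤ, δ ≠ 0 → IsCoprime δ (β * N') →
      psi ε g Φ 0 (β / δ) 0 1 = 0 := by
  obtain ⟨r, N', hN', hNr⟩ := Nat.exists_eq_pow_mul_and_not_dvd hN p hp.ne_one
  have hcop : p.Coprime N' := (hp.coprime_iff_not_dvd).mpr hN'
  obtain ⟨s, rfl⟩ : ∃ s, r = s + 1 := by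
    refine ⟨r - 1, ?_⟩
    have : r ≠ 0 := by
      rintro rfl
      rw [pow_zero, one_mul] at hNr
      exact hN' (hNr ▸ hpN)
    omega
  refine ⟨N', ⟨p ^ (s + 1), by rw [hNr]; ring⟩, hcop, ?_⟩
  have hEN : Eqv (p ^ (s + 1) * N') (fun d => ε d * (d : F) ^ g)
      (fun x y => psi ε g Φ x y 0 1) := by
    intro A B C' D hdet hC' x y hx hy
    have hC : (N : ℤ) ∣ C' := by
      rw [hNr]
      exact hC'
    have h1 := psi_equi hΦ A B C' D hdet hC x y hx hy 0 1
    have hC0 : (C' : F) = 0 := by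
      apply (CharP.intCast_eq_zero_iff F p C').mpr
      exact dvd_trans (by exact_mod_cast hpN) hC
    have h2 := psi_homog hΦ x y (D : F) 0 1
    simp only [mul_zero, mul_one, zero_add, hC0] at h1 h2
    simp only
    rw [h1, h2]
    ring
  have hT' := psi_T hΦ hval hp (Or.inr hpN) hT
  have hE := level_down_all (ψ := fun x y => psi ε g Φ x y 0 1)
    (χ := fun d => ε d * (d : F) ^ g) hp ha (by simp)
    (fun d d' h => chi_congr hp ε g hNr hcop d d' h) hT' s hEN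
  intro β δ hδ hβδ
  exact key_stepP_all (ψ := fun x y => psi ε g Φ x y 0 1)
    (χ := fun d => ε d * (d : F) ^ g) hp hcop ha (fun x y z => psi_add hΦ x y z 0 1) hE (by simp)
    (fun S S' i i' => psi_van hΦ hval hp (Or.inr hpN) ha hT S S' i i' 0 1) hT' β δ hδ hβδ

include hΦ hval in
lemma psi_uvP (hp : p.Prime) [CharP F p] (hN : N ≠ 0) (hpN : p ∣ N) (ha : a ≠ 0)
    (hT : ∀ x y, heckeT p N ε Φ x y = C a * Φ x y) (β δ : ℤ)
    (hδ : δ ≠ 0) (hδN : IsCoprime δ (N : ℤ)) (u v : F) : psi ε g Φ 0 (β / δ) u v = 0 := by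
  obtain ⟨N', hN'N, hcop, hz⟩ := psi_zeroP hΦ hval hp hN hpN ha hT
  have hp0 : (p : ℤ) ≠ 0 := by exact_mod_cast hp.ne_zero
  have hpQ : (p : ℚ) ≠ 0 := by exact_mod_cast hp.ne_zero
  have hpNZ : IsCoprime (p : ℤ) (N' : ℤ) := Nat.isCoprime_iff_coprime.mpr hcop
  have hδN' : IsCoprime δ (N' : ℤ) :=
    IsCoprime.of_isCoprime_of_dvd_right hδN (by exact_mod_cast hN'N)
  have hz1 : ∀ A B : ℤ, B ≠ 0 → IsCoprime B (N' : ℤ) → psi ε g Φ 0 (A / B) 0 1 = 0 := by
    intro A B hB hBN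
    obtain ⟨β, δ, hδ, hcop, h⟩ := lowest A B hBN hB
    rw [h]
    exact hz β δ hδ hcop
  have h := psi_T_full hΦ hval hp (Or.inr hpN) hT 0 (β / δ : ℚ) u v
  have h1 : ∀ j ∈ range p, (v - j * u) ^ g *
      psi ε g Φ ((0 + (j : ℚ)) / p) ((β / δ + j) / p) 0 1 = 0 := by
    intro j _
    have hδQ : (δ : ℚ) ≠ 0 := by exact_mod_cast hδ
    have e1 : (0 + (j : ℚ)) / p = ((j : ℤ) : ℚ) / ((p : ℤ) : ℚ) := by
      push_cast
      rw [zero_add]
    have e2 : ((β : ℚ) / δ + j) / p = ((β + j * δ : ℤ) : ℚ) / ((p * δ : ℤ) : ℚ) := by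
      push_cast
      field_simp
    have h3 := psi_add hΦ 0 (((j : ℤ) : ℚ) / ((p : ℤ) : ℚ))
      (((β + j * δ : ℤ) : ℚ) / ((p * δ : ℤ) : ℚ)) 0 1
    rw [hz1 _ _ hp0 hpNZ, hz1 _ _ (mul_ne_zero hp0 hδ) (hpNZ.mul_left hδN'), zero_add] at h3
    rw [e1, e2, h3, mul_zero]
  rw [sum_eq_zero h1, eps_zero hp ε hpN, zero_mul, add_zero] at h
  exact (mul_eq_zero.mp h).resolve_left ha

include hΦ hval in
/-- The value of the symbol on the path from `0` to a cusp in the orbit of `0`, over an infinite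
field. -/
theorem phi_zero_inf [Infinite F] (hp : p.Prime) [CharP F p] (hN : N ≠ 0)
    (hg : 1 ≤ g ∨ p ∣ N) (ha : a ≠ 0) (hT : ∀ x y, heckeT p N ε Φ x y = C a * Φ x y) (β δ : ℤ)
    (hδ : δ ≠ 0) (hcop : IsCoprime δ (β * N)) :
    Φ ((0 : ℚ) : OnePoint ℚ) ((β / δ : ℚ) : OnePoint ℚ) =
      C (phi0 Φ) * (bform ε g β δ - bform ε g 0 1) := by
  have hβδ : IsCoprime β δ := (hcop.of_mul_right_left).symm
  have hδN : IsCoprime δ N := hcop.of_mul_right_right
  rw [← sub_eq_zero]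
  apply MvPolynomial.funext
  intro x
  have hx : x = ![x 0, x 1] := by
    funext i
    fin_cases i <;> simp
  rw [hx, ← psi_bform hΦ β δ hδ hβδ, map_zero]
  by_cases hpN : p ∣ N
  · exact psi_uvP hΦ hval hp hN hpN ha hT β δ hδ hδN _ _
  · exact psi_uv hΦ hval hp hN (hp.coprime_iff_not_dvd.mpr hpN) hg ha hT β δ hδ hδN _ _

include hΦ hval in
/-- The value of the symbol on the path from `0` to a cusp in the orbit of `0`. -/
theorem phi_zero (hp : p.Prime) [CharP F p] (hN : N ≠ 0) (hg : 1 ≤ g ∨ p ∣ N)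
    (ha : a ≠ 0) (hT : ∀ x y, heckeT p N ε Φ x y = C a * Φ x y) (β δ : ℤ)
    (hδ : δ ≠ 0) (hcop : IsCoprime δ (β * N)) :
    Φ ((0 : ℚ) : OnePoint ℚ) ((β / δ : ℚ) : OnePoint ℚ) =
      C (phi0 Φ) * (bform ε g β δ - bform ε g 0 1) := by
  have hinj := (algebraMap F (AlgebraicClosure F)).injective
  have hchar : CharP (AlgebraicClosure F) p := charP_of_injective_algebraMap hinj p
  apply MvPolynomial.map_injective (algebraMap F (AlgebraicClosure F)) hinj
  have h := phi_zero_inf (base_isModSym (algebraMap F (AlgebraicClosure F)) hΦ)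
    (fun n hn b hb => base_val (algebraMap F (AlgebraicClosure F)) n b (hval n hn b hb))
    hp hN hg (a := algebraMap F (AlgebraicClosure F) a)
    (fun h0 => ha (by rwa [map_eq_zero_iff _ hinj] at h0))
    (base_hecke (algebraMap F (AlgebraicClosure F)) hT) β δ hδ hcop
  rw [h]
  have h0 : phi0 (fun x y => map (algebraMap F (AlgebraicClosure F)) (Φ x y)) =
      algebraMap F (AlgebraicClosure F) (phi0 Φ) := by
    unfold phi0
    have := eval_map_vec (algebraMap F (AlgebraicClosure F)) (Φ ∞ ((0 : ℚ) : OnePoint ℚ)) 0 1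
    rw [map_zero, map_one] at this
    exact this
  have hb : ∀ β δ : ℤ, bform (ε.ringHomComp (algebraMap F (AlgebraicClosure F))) g β δ =
      map (algebraMap F (AlgebraicClosure F)) (bform ε g β δ) := by
    intro β δ
    unfold bform
    simp [MulChar.ringHomComp_apply]
  rw [h0, hb, hb, map_mul, map_C, map_sub]

include hΦ hval in
/-- The value of the symbol on the path from `0` to `∞`, in level one. -/
theorem phi_infty (hp : p.Prime) [CharP F p] (hN : N = 1) (hg : 1 ≤ g ∨ p ∣ N) (ha : a ≠ 0) (hT : ∀ x y, heckeT p N ε Φ x y = C a * Φ x y) :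
    Φ ((0 : ℚ) : OnePoint ℚ) ∞ = C (phi0 Φ) * (X 0 ^ g - X 1 ^ g) := by
  subst hN
  have h1 := hΦ.equiv 1 0 1 1 (by ring) (by simp) ((0 : ℚ) : OnePoint ℚ) (((-1 : ℚ)) : OnePoint ℚ)
  rw [mob_coe _ _ _ _ (by simp)] at h1
  have h2 : mob 1 0 1 1 (((-1 : ℚ)) : OnePoint ℚ) = ∞ := by simp [mob]
  rw [h2] at h1
  have h3 := phi_zero hΦ hval hp one_ne_zero hg ha hT (-1) 1
    one_ne_zero isCoprime_one_left
  have h4 : (((-1 : ℤ) : ℚ) / ((1 : ℤ) : ℚ)) = -1 := by norm_num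
  rw [h4] at h3
  rw [h3] at h1
  have h5 : ((((1 : ℤ) : ℚ) * 0 + ((0 : ℤ) : ℚ)) / (((1 : ℤ) : ℚ) * 0 + ((1 : ℤ) : ℚ))) = 0 := by
    norm_num
  rw [h5] at h1
  rw [h1]
  rcases sign_cond hΦ with h0 | h0
  · rw [h0]
    simp [act]
  · have h6 : ε (-1) = 1 := by
      have : (-1 : ZMod 1) = 1 := Subsingleton.elim _ _
      rw [this, map_one]
    rw [h6, one_mul] at h0
    have h7 : (-1 : MvPolynomial (Fin 2) F) ^ g = 1 := by
      have := congrArg (C : F →+* MvPolynomial (Fin 2) F) h0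
      simpa using this
    have h8 : ((1 : ℤ) : ZMod 1) = 1 := by simp
    simp only [act, bform, map_mul, map_sub, map_pow, map_add, aeval_C, aeval_X,
      Matrix.cons_val_zero, Matrix.cons_val_one, algebraMap_eq]
    simp only [Int.cast_neg, Int.cast_one, Int.cast_zero, map_neg, map_one, map_zero, one_mul,
      zero_mul, zero_add, neg_mul]
    have h9 : (-(X 0 + X 1) + X 1 : MvPolynomial (Fin 2) F) = (-1) * X 0 := by ring
    rw [h9, mul_pow, h7, one_mul]

include hΦ hval in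
/-- **The theorem**, in its direct form. -/
theorem boundary_of_val (hp : p.Prime) [CharP F p] (hN : N ≠ 0) (hg : 1 ≤ g ∨ p ∣ N)
    (ha : a ≠ 0) (hT : ∀ x y, heckeT p N ε Φ x y = C a * Φ x y) :
    IsBoundary N g ε Φ := by
  have hadd0 : ∀ x y : OnePoint ℚ, Φ x y =
      Φ ((0 : ℚ) : OnePoint ℚ) y - Φ ((0 : ℚ) : OnePoint ℚ) x := by
    intro x y
    rw [← hΦ.add ((0 : ℚ) : OnePoint ℚ) x y]
    ring
  refine ⟨fun x => Φ ((0 : ℚ) : OnePoint ℚ) x + C (phi0 Φ) * X 1 ^ g, fun x => ?_,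
    fun x y => ?_, ?_⟩
  · apply (hΦ.homog _ _).add
    simpa using (isHomogeneous_C (Fin 2) (phi0 Φ)).mul ((isHomogeneous_X F (1 : Fin 2)).pow g)
  · rw [hadd0 x y]
    ring
  intro α β' c d hdet hNc x
  simp only
  have h1 := hΦ.equiv α β' c d hdet hNc ((0 : ℚ) : OnePoint ℚ) x
  have h2 := hΦ.add ((0 : ℚ) : OnePoint ℚ) (mob α β' c d ((0 : ℚ) : OnePoint ℚ)) (mob α β' c d x)
  rw [← h2, h1]
  have key : Φ ((0 : ℚ) : OnePoint ℚ) (mob α β' c d ((0 : ℚ) : OnePoint ℚ)) =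
      C (phi0 Φ) * (bform ε g β' d - X 1 ^ g) := by
    have hb01 : bform ε g 0 1 = X 1 ^ g := by simp [bform]
    by_cases hd : d = 0
    · have hN1 : N = 1 := by
        have h3 : (N : ℤ) ∣ 1 := by
          rw [← hdet, hd, mul_zero, zero_sub]
          exact (hNc.mul_left _).neg_right
        have := Int.natAbs_dvd_natAbs.mpr h3
        simpa using this
      have hbc : β' * c = -1 := by
        rw [hd, mul_zero, zero_sub] at hdet
        linarith
      have hb1 : β' = 1 ∨ β' = -1 := by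
        apply Int.isUnit_iff.mp
        exact IsUnit.of_mul_eq_one (-c) (by rw [mul_neg, hbc]; ring)
      have hm : mob α β' c d ((0 : ℚ) : OnePoint ℚ) = ∞ := by
        simp [mob, hd]
      rw [hm, phi_infty hΦ hval hp hN1 hg ha hT]
      rcases sign_cond hΦ with h0 | h0
      · rw [h0]; simp
      · subst hN1
        have h6 : ε (-1) = 1 := by
          have : (-1 : ZMod 1) = 1 := Subsingleton.elim _ _
          rw [this, map_one]
        rw [h6, one_mul] at h0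
        have h7 : (-1 : MvPolynomial (Fin 2) F) ^ g = 1 := by
          have := congrArg (C : F →+* MvPolynomial (Fin 2) F) h0
          simpa using this
        have h8 : ε ((0 : ℤ) : ZMod 1) = 1 := by
          have : ((0 : ℤ) : ZMod 1) = 1 := Subsingleton.elim _ _
          rw [this, map_one]
        congr 2
        unfold bform
        rw [hd, h8]
        rcases hb1 with rfl | rfl
        · simp
        · simp only [Int.cast_neg, Int.cast_one, Int.cast_zero, map_neg, map_one, map_zero,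
            one_mul, zero_mul, add_zero]
          rw [mul_pow, h7, one_mul]
    · have hdcop : IsCoprime d (β' * N) := by
        obtain ⟨m, hm⟩ := hNc
        refine ⟨α, -m, ?_⟩
        linear_combination hdet + β' * hm
      have hm : mob α β' c d ((0 : ℚ) : OnePoint ℚ) = ((β' / d : ℚ) : OnePoint ℚ) := by
        rw [mob_coe _ _ _ _ (by simpa using hd)]
        simp
      rw [hm, phi_zero hΦ hval hp hN hg ha hT β' d hd hdcop, hb01]
  rw [key]
  have h4 : act α β' c d (C (phi0 Φ) * X 1 ^ g) = C (phi0 Φ) *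
      (C (β' : F) * X 0 + C (d : F) * X 1) ^ g := by
    simp only [act, map_mul, map_pow, aeval_C, aeval_X, Matrix.cons_val_one,
      Matrix.cons_val_fin_one, algebraMap_eq]
  have h5 : act α β' c d (Φ ((0 : ℚ) : OnePoint ℚ) x + C (phi0 Φ) * X 1 ^ g) =
      act α β' c d (Φ ((0 : ℚ) : OnePoint ℚ) x) + act α β' c d (C (phi0 Φ) * X 1 ^ g) := by
    unfold act
    rw [map_add]
  rw [h5, h4]
  unfold bform
  ring

end Pool.Agent.MuSym
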