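import Mathlib

/-! A homogeneous form in two variables of degree at most `p` over a field of characteristic `p`
which vanishes at all points `(0,1)`, `(1,v)` with integral `v` is zero. -/

namespace Pool.Agent.MuSym

open MvPolynomial

variable {F : Type*} [Field F]

/-- Dehomogenisation `P(1, X)`. -/
noncomputable def deh (P : MvPolynomial (Fin 2) F) : Polynomial F :=
  MvPolynomial.aeval ![1, Polynomial.X] P

lemma deh_eval (P : MvPolynomial (Fin 2) F) (v : F) :
    (deh P).eval v = eval ![1, v] P := by
  unfold deh
  rw [MvPolynomial.aeval_def, ← Polynomial.coe_evalRingHom, MvPolynomial.hom_eval₂]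
  rw [← MvPolynomial.eval₂_id]
  congr 1
  · ext a; simp
  · funext i
    fin_cases i <;> simp

lemma deh_sum (P : MvPolynomial (Fin 2) F) :
    deh P = ∑ d ∈ P.support, Polynomial.monomial (d 1) (coeff d P) := by
  unfold deh
  rw [MvPolynomial.aeval_def, MvPolynomial.eval₂_eq']
  refine Finset.sum_congr rfl fun d _ => ?_
  rw [Fin.prod_univ_two, ← Polynomial.C_mul_X_pow_eq_monomial]
  simp

lemma hom_zero {p : ℕ} (_hp : p.Prime) [CharP F p] {g : ℕ} (P : MvPolynomial (Fin 2) F)
    (hP : P.IsHomogeneous g) (_hg1 : 1 ≤ g) (hg : g ≤ p)
    (h0 : eval ![0, 1] P = 0) (h1 : ∀ v : ℤ, eval ![1, (v : F)] P = 0) : P = 0 := by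
  classical
  have hdeg : ∀ d ∈ P.support, d 0 + d 1 = g := by
    intro d hd
    have := hP (mem_support_iff.1 hd)
    rw [← this, Finsupp.weight_apply, Finsupp.sum_fintype _ _ (by simp), Fin.sum_univ_two]
    simp
  -- coefficients of the dehomogenisation
  have hcoef : ∀ d ∈ P.support, (deh P).coeff (d 1) = coeff d P := by
    intro d hd
    rw [deh_sum, Polynomial.finsetSum_coeff, Finset.sum_eq_single d]
    · rw [Polynomial.coeff_monomial, if_pos rfl]
    · intro e he hne
      rw [Polynomial.coeff_monomial, if_neg]
      intro h
      apply hne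
      have h2 := hdeg e he
      have h3 := hdeg d hd
      ext i
      fin_cases i
      · simp only [Fin.zero_eta, Fin.isValue]; omega
      · simpa using h
    · intro h; exact absurd hd h
  -- the top coefficient vanishes
  have htop : ∀ d ∈ P.support, d 0 ≠ 0 := by
    intro d hd hd0
    have hd1 : d 1 = g := by have := hdeg d hd; omega
    have hev : eval ![0, 1] P = coeff d P := by
      rw [MvPolynomial.eval_eq', Finset.sum_eq_single d]
      · rw [Fin.prod_univ_two]; simp [hd0]
      · intro e he hne
        rw [Fin.prod_univ_two]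
        have he0 : e 0 ≠ 0 := by
          intro he0
          apply hne
          have h2 := hdeg e he
          ext i
          fin_cases i
          · simp only [Fin.zero_eta, Fin.isValue]; omega
          · simp only [Fin.mk_one, Fin.isValue]; omega
        simp [he0]
      · intro h; exact absurd hd h
    exact (mem_support_iff.1 hd) (hev ▸ h0)
  have hnd : (deh P).degree < (p : ℕ) := by
    rw [deh_sum]
    refine lt_of_le_of_lt (Polynomial.degree_sum_le _ _) ?_
    rw [Finset.sup_lt_iff (by exact WithBot.bot_lt_coe p)]
    intro d hd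
    refine lt_of_le_of_lt (Polynomial.degree_monomial_le _ _) ?_
    have h2 := hdeg d hd
    have h3 := htop d hd
    exact_mod_cast (show d 1 < p by omega)
  have hz : deh P = 0 := by
    apply Polynomial.eq_zero_of_degree_lt_of_eval_finset_eq_zero
      (s := (Finset.range p).image (fun n : ℕ => (n : F)))
    · have hinj : Set.InjOn (fun n : ℕ => (n : F)) (Finset.range p : Finset ℕ) := by
        intro a ha b hb hab
        simp only [Finset.coe_range, Set.mem_Iio] at ha hb
        have := (CharP.natCast_eq_natCast F p).1 hab
        exact Nat.ModEq.eq_of_lt_of_lt this ha hb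
      rw [Finset.card_image_of_injOn hinj, Finset.card_range]
      exact hnd
    · intro x hx
      obtain ⟨n, _, rfl⟩ := Finset.mem_image.1 hx
      rw [deh_eval]
      simpa using h1 (n : ℤ)
  by_contra hne
  obtain ⟨d, hd⟩ := MvPolynomial.support_nonempty.2 hne
  have := hcoef d hd
  rw [hz, Polynomial.coeff_zero] at this
  exact (mem_support_iff.1 hd) this.symm

end Pool.Agent.MuSym
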