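import Pool.Agent.MuSym.Main

/-!
The constant: a function on the rational numbers with the Hecke relation and the translation
relation whose coefficient at `(0, 1)` vanishes on `ℤ[1/p]` is constant on `ℤ[1/p]`.
-/

open Finset

namespace Pool.Agent.MuSym

variable {F : Type} [Field F] {p : ℕ}

theorem kappa_const (hp : p.Prime) {a e : F} (ha : a ≠ 0) (g : ℕ) {K : ℚ → F → F → F}
    (hT : ∀ r u v, a * K r u v =
      ∑ j ∈ range p, (v - j * u) ^ g * K ((r + j) / p) 0 1 + e * (u ^ g * K (p * r) 1 0))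
    (h1 : ∀ r u v, K (r + 1) u v = K r u (u + v))
    (h0 : ∀ (S : ℤ) (i : ℕ), K (S / (p : ℚ) ^ i) 0 1 = 0) (S : ℤ) (i : ℕ) (u v : F) :
    K (S / (p : ℚ) ^ i) u v = K 0 1 0 * u ^ g := by
  have hpQ : (p : ℚ) ≠ 0 := by exact_mod_cast hp.ne_zero
  have key : ∀ (S : ℤ) (i : ℕ) (u v : F), a * K (S / (p : ℚ) ^ i) u v =
      e * (u ^ g * K (p * (S / (p : ℚ) ^ i)) 1 0) := by
    intro S i u v
    rw [hT, sum_eq_zero, zero_add]
    intro j _
    have h2 : (((S : ℚ) / (p : ℚ) ^ i) + j) / p = ((S + j * (p : ℤ) ^ i : ℤ) : ℚ) / (p : ℚ) ^ (i + 1) := by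
      push_cast
      field_simp
      ring
    rw [h2, h0, mul_zero]
  have key2 : ∀ (S : ℤ) (i : ℕ) (u v : F), K (S / (p : ℚ) ^ i) u v =
      K (S / (p : ℚ) ^ i) 1 0 * u ^ g := by
    intro S i u v
    apply mul_left_cancel₀ ha
    have h3 := key S i u v
    have h4 := key S i 1 0
    rw [one_pow, one_mul] at h4
    linear_combination h3 - u ^ g * h4
  have key3 : ∀ S : ℤ, K ((S : ℚ) + 1) 1 0 = K (S : ℚ) 1 0 := by
    intro S
    rw [h1]
    have h5 := key2 S 0 1 (1 + 0)
    rw [pow_zero, div_one, one_pow, mul_one] at h5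
    exact h5
  have key4 : ∀ S : ℤ, K (S : ℚ) 1 0 = K 0 1 0 := by
    intro S
    induction S using Int.induction_on with
    | zero => simp
    | succ n ih =>
      have h6 := key3 n
      push_cast at h6 ih ⊢
      rw [h6, ih]
    | pred n ih =>
      have h6 := key3 (-(n : ℤ) - 1)
      push_cast at h6 ih ⊢
      rw [← ih, ← h6]
      congr 1
      ring
  have key5 : ∀ (i : ℕ) (S : ℤ), K (S / (p : ℚ) ^ i) 1 0 = K 0 1 0 := by
    intro i
    induction i with
    | zero => intro S; rw [pow_zero, div_one, key4]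
    | succ i ih =>
      intro S
      apply mul_left_cancel₀ ha
      have h7 := key S (i + 1) 1 0
      have h8 := key 0 0 1 0
      have h9 : (p : ℚ) * (S / (p : ℚ) ^ (i + 1)) = S / (p : ℚ) ^ i := by
        field_simp
        ring
      rw [h9, ih, one_pow, one_mul] at h7
      rw [Int.cast_zero, zero_div, mul_zero, one_pow, one_mul] at h8
      rw [h7, h8]
  rw [key2, key5]

end Pool.Agent.MuSym
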