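import Mathlib

/-!
The key step at a level divisible by `p` exactly once, for functions `ψ` on the pairs of rational
numbers with values in a field of characteristic `p`.
-/

open Finset

namespace Pool.Agent.MuSym

variable {F : Type} [Field F] {p M : ℕ} {χ : ℤ → F} {ψ : ℚ → ℚ → F}

/-- `ψ` is equivariant under `Γ₀(M)` with the factor `χ`, at the finite cusps. -/
def Eqv (M : ℕ) (χ : ℤ → F) (ψ : ℚ → ℚ → F) : Prop :=
  ∀ a b c d : ℤ, a * d - b * c = 1 → (M : ℤ) ∣ c → ∀ x y : ℚ, (c : ℚ) * x + d ≠ 0 →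
    (c : ℚ) * y + d ≠ 0 → ψ ((a * x + b) / (c * x + d)) ((a * y + b) / (c * y + d)) = χ d * ψ x y

omit [Field F] in
/-- A function on the integers with period `P` and a second period `T`, prime to `P`, except at
one residue class, is constant. -/
lemma const_of_cycle {G : ℤ → F} {P T S₀ : ℤ} (hP : 0 < P) (hPT : IsCoprime T P)
    (hp : ∀ x, G (x + P) = G x) (ht : ∀ x, ¬ P ∣ x - S₀ → G (x + T) = G x) (x : ℤ) :
    G x = G 0 := by
  have per : ∀ (k x : ℤ), G (x + k * P) = G x := by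
    intro k
    induction k using Int.induction_on with
    | zero => intro x; simp
    | succ n ih =>
      intro x
      rw [show x + (n + 1) * P = (x + n * P) + P by ring, hp, ih]
    | pred n ih =>
      intro x
      have := hp (x + (-(n : ℤ) - 1) * P)
      rw [show x + (-(n : ℤ) - 1) * P + P = x + -(n : ℤ) * P by ring, ih] at this
      exact this.symm
  have walk : ∀ k : ℕ, (k : ℤ) < P → G (S₀ + T + k * T) = G (S₀ + T) := by
    intro k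
    induction k with
    | zero => intro _; simp
    | succ k ih =>
      intro hk
      have h1 := ih (by push_cast at hk; omega)
      have h2 : ¬ P ∣ (S₀ + T + k * T) - S₀ := by
        intro hcon
        have h3 : P ∣ T * ((k : ℤ) + 1) := by
          have h4 : (S₀ + T + k * T) - S₀ = T * ((k : ℤ) + 1) := by ring
          rwa [h4] at hcon
        have h5 : P ∣ (k : ℤ) + 1 := hPT.symm.dvd_of_dvd_mul_left h3
        have h6 := Int.le_of_dvd (by omega) h5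
        push_cast at hk
        omega
      have h3 := ht _ h2
      rw [← h1, ← h3]
      congr 1
      push_cast
      ring
  have all : ∀ x, G x = G (S₀ + T) := by
    intro x
    obtain ⟨s, t, hst⟩ := hPT
    -- `k ≡ (x - S₀ - T) s (mod P)`
    obtain ⟨k, hk⟩ : ∃ k : ℕ, (k : ℤ) = ((x - S₀ - T) * s) % P :=
      ⟨(((x - S₀ - T) * s) % P).toNat, Int.toNat_of_nonneg (Int.emod_nonneg _ hP.ne')⟩
    have hkP : (k : ℤ) < P := by
      rw [hk]
      exact Int.emod_lt_of_pos _ hP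
    have h1 := Int.emod_add_mul_ediv ((x - S₀ - T) * s) P
    rw [← hk] at h1
    have h2 := walk k hkP
    rw [← h2]
    have h3 := per ((x - S₀ - T) * t + ((x - S₀ - T) * s / P) * T) (S₀ + T + k * T)
    rw [← h3]
    congr 1
    linear_combination (-(x - S₀ - T)) * hst - T * h1
  rw [all x, all 0]

/-- `ψ` vanishes on the pairs of points of one sheet. -/
lemma sheetP (hp : p.Prime) (hE : Eqv M χ ψ)
    (hZ : ∀ (S S' : ℤ) (i i' : ℕ), ψ (S / (p : ℚ) ^ i) (S' / (p : ℚ) ^ i') = 0)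
    (a1 c1 b d b' d' : ℤ) (hNc1 : (M : ℤ) ∣ c1) (hcop : IsCoprime a1 c1) (hd : d ≠ 0)
    (hd' : d' ≠ 0) (i i' : ℕ) (q1 : a1 * d - c1 * b = (p : ℤ) ^ i)
    (q2 : a1 * d' - c1 * b' = (p : ℤ) ^ i') : ψ (b / d) (b' / d') = 0 := by
  obtain ⟨d2, b2', hbez⟩ := hcop
  obtain ⟨b2, rfl⟩ : ∃ b2, b2' = -b2 := ⟨-b2', by ring⟩
  have hdet : a1 * d2 - b2 * c1 = 1 := by linarith
  have hdetQ : (a1 : ℚ) * d2 - b2 * c1 = 1 := by exact_mod_cast hdet
  have hq1 : (a1 : ℚ) * d - c1 * b = (p : ℚ) ^ i := by exact_mod_cast q1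
  have hq2 : (a1 : ℚ) * d' - c1 * b' = (p : ℚ) ^ i' := by exact_mod_cast q2
  have hpQ : (p : ℚ) ≠ 0 := by exact_mod_cast hp.ne_zero
  have hP1 : (p : ℚ) ^ i ≠ 0 := pow_ne_zero _ hpQ
  have hP2 : (p : ℚ) ^ i' ≠ 0 := pow_ne_zero _ hpQ
  have hdQ : (d : ℚ) ≠ 0 := by exact_mod_cast hd
  have hdQ' : (d' : ℚ) ≠ 0 := by exact_mod_cast hd'
  have e1 : (c1 : ℚ) * (((d2 * b - b2 * d : ℤ) : ℚ) / (p : ℚ) ^ i) + d2 = d / (p : ℚ) ^ i := by
    rw [eq_div_iff hP1, add_mul, mul_assoc, div_mul_cancel₀ _ hP1, ← hq1]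
    push_cast
    linear_combination (d : ℚ) * hdetQ
  have e2 : (a1 : ℚ) * (((d2 * b - b2 * d : ℤ) : ℚ) / (p : ℚ) ^ i) + b2 = b / (p : ℚ) ^ i := by
    rw [eq_div_iff hP1, add_mul, mul_assoc, div_mul_cancel₀ _ hP1, ← hq1]
    push_cast
    linear_combination (b : ℚ) * hdetQ
  have e3 : (c1 : ℚ) * (((d2 * b' - b2 * d' : ℤ) : ℚ) / (p : ℚ) ^ i') + d2 =
      d' / (p : ℚ) ^ i' := by
    rw [eq_div_iff hP2, add_mul, mul_assoc, div_mul_cancel₀ _ hP2, ← hq2]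
    push_cast
    linear_combination (d' : ℚ) * hdetQ
  have e4 : (a1 : ℚ) * (((d2 * b' - b2 * d' : ℤ) : ℚ) / (p : ℚ) ^ i') + b2 =
      b' / (p : ℚ) ^ i' := by
    rw [eq_div_iff hP2, add_mul, mul_assoc, div_mul_cancel₀ _ hP2, ← hq2]
    push_cast
    linear_combination (b' : ℚ) * hdetQ
  have key := hE a1 b2 c1 d2 hdet hNc1
    (((d2 * b - b2 * d : ℤ) : ℚ) / (p : ℚ) ^ i)
    (((d2 * b' - b2 * d' : ℤ) : ℚ) / (p : ℚ) ^ i')
    (by rw [e1]; exact div_ne_zero hdQ hP1) (by rw [e3]; exact div_ne_zero hdQ' hP2)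
  rw [e1, e2, e3, e4, hZ, mul_zero, div_div_div_cancel_right₀ hP1,
    div_div_div_cancel_right₀ hP2] at key
  exact key

/-- The key step at the level `p N'`: the cusps in the orbit of `0`. -/
theorem key_stepP (hp : p.Prime) [CharP F p] {N' : ℕ} (hpN : p.Coprime N') {a : F}
    (ha : a ≠ 0) (hadd : ∀ x y z, ψ x y + ψ y z = ψ x z) (hE : Eqv (p * N') χ ψ) (hχ : χ 1 = 1)
    (hZ : ∀ (S S' : ℤ) (i i' : ℕ), ψ (S / (p : ℚ) ^ i) (S' / (p : ℚ) ^ i') = 0)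
    (hT : ∀ x y, a * ψ x y = ∑ j ∈ range p, ψ ((x + j) / p) ((y + j) / p))
    (β δ : ℤ) (hδ : δ ≠ 0) (hcop : IsCoprime δ (β * (p * N' : ℕ))) : ψ 0 (β / δ) = 0 := by
  have hp0 : (p : ℤ) ≠ 0 := by exact_mod_cast hp.ne_zero
  have hpQ : (p : ℚ) ≠ 0 := by exact_mod_cast hp.ne_zero
  have hpp : Prime (p : ℤ) := Nat.prime_iff_prime_int.mp hp
  obtain ⟨α, w, hw⟩ := hcop
  obtain ⟨κ, hκN, hdet⟩ : ∃ κ : ℤ, ((p * N' : ℕ) : ℤ) ∣ κ ∧ α * δ - β * κ = 1 :=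
    ⟨-(w * (p * N' : ℕ)), ⟨-w, by ring⟩, by linear_combination hw⟩
  by_cases hκ : κ = 0
  · rw [hκ, mul_zero, sub_zero] at hdet
    have hδ1 : δ = 1 ∨ δ = -1 :=
      Int.isUnit_iff.mp (IsUnit.of_mul_eq_one α (by rw [mul_comm]; exact hdet))
    rcases hδ1 with rfl | rfl
    · have := hZ 0 β 0 0
      simpa using this
    · have h3 := hZ 0 (-β) 0 0
      have h4 : ((β : ℤ) : ℚ) / ((-1 : ℤ) : ℚ) = ((-β : ℤ) : ℚ) / (p : ℚ) ^ 0 := by
        push_cast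
        ring
      rw [h4, ← h3]
      congr 1
      simp
  obtain ⟨e, m', hm', hem'⟩ : ∃ (e : ℕ) (m : ℤ), ¬ (p : ℤ) ∣ m ∧ κ = (p : ℤ) ^ e * m := by
    have hfin : FiniteMultiplicity (p : ℤ) κ := by
      apply Int.finiteMultiplicity_iff.mpr
      refine ⟨?_, hκ⟩
      simpa using hp.ne_one
    obtain ⟨m, hm1, hm2⟩ := hfin.exists_eq_pow_mul_and_not_dvd
    exact ⟨_, m, hm2, hm1⟩
  have hpκ : (p : ℤ) ∣ κ := dvd_trans ⟨(N' : ℤ), by push_cast; ring⟩ hκN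
  have hN'κ : (N' : ℤ) ∣ κ := dvd_trans ⟨(p : ℤ), by push_cast; ring⟩ hκN
  have hpδ : ¬ (p : ℤ) ∣ δ := by
    intro hcon
    apply hpp.not_isUnit
    apply isUnit_of_dvd_one
    rw [← hdet]
    exact dvd_sub (hcon.mul_left _) (hpκ.mul_left _)
  have hN'm : (N' : ℤ) ∣ m' := by
    rw [hem'] at hN'κ
    have : IsCoprime (N' : ℤ) ((p : ℤ) ^ e) :=
      IsCoprime.pow_right (Nat.isCoprime_iff_coprime.mpr hpN).symm
    exact this.dvd_of_dvd_mul_left hN'κ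
  have hpm : Nat.Coprime p (m' * δ).natAbs := by
    rw [hp.coprime_iff_not_dvd]
    intro hcon
    rcases hpp.dvd_or_dvd (Int.natCast_dvd.mpr hcon) with h | h
    · exact hm' h
    · exact hpδ h
  obtain ⟨o, T, ho, hT1⟩ : ∃ (o : ℕ) (T : ℤ), o ≠ 0 ∧ (m' * δ) * T = 1 - (p : ℤ) ^ o := by
    have hm0 : m' * δ ≠ 0 := by
      intro h
      rw [h] at hpm
      simp only [Int.natAbs_zero, Nat.coprime_zero_right] at hpm
      exact hp.ne_one hpm
    have htot := Nat.ModEq.pow_totient hpm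
    have hdvd : m' * δ ∣ 1 - (p : ℤ) ^ (Nat.totient (m' * δ).natAbs) := by
      have h3 := (Nat.modEq_iff_dvd.mp htot)
      rw [← Int.natAbs_dvd]
      have h4 : (((m' * δ).natAbs : ℕ) : ℤ) ∣ ((1 : ℕ) : ℤ) -
          ((p ^ Nat.totient (m' * δ).natAbs : ℕ) : ℤ) := h3
      push_cast at h4 ⊢
      exact h4
    obtain ⟨T, hT2⟩ := hdvd
    refine ⟨_, T, ?_, hT2.symm⟩
    have : 0 < Nat.totient (m' * δ).natAbs := Nat.totient_pos.mpr (Int.natAbs_pos.mpr hm0)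
    omega
  have hTp1 : IsCoprime T (p : ℤ) := by
    refine ⟨m' * δ, (p : ℤ) ^ (o - 1), ?_⟩
    rw [hT1, ← pow_succ, Nat.sub_add_cancel (Nat.pos_of_ne_zero ho)]
    ring
  have hTp : IsCoprime T ((p : ℤ) ^ (e + 1)) := hTp1.pow_right
  have hδQ : (δ : ℚ) ≠ 0 := by exact_mod_cast hδ
  have hPe : (p : ℚ) ^ (e + 1) ≠ 0 := pow_ne_zero _ hpQ
  -- the exceptional residue class
  obtain ⟨S₀, hS₀⟩ : ∃ S₀ : ℤ, (p : ℤ) ^ (e + 1) ∣ α + S₀ * m' := by
    have : IsCoprime m' ((p : ℤ) ^ (e + 1)) :=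
      IsCoprime.pow_right ((Prime.coprime_iff_not_dvd hpp).mpr hm').symm
    obtain ⟨s, t, hst⟩ := this
    refine ⟨-α * s, α * t, ?_⟩
    linear_combination (-α) * hst
  let G : ℤ → F := fun S => ψ ((S : ℚ) / (p : ℚ) ^ (e + 1))
    (((β * (p : ℤ) ^ e + S * δ : ℤ) : ℚ) / ((δ * (p : ℤ) ^ (e + 1) : ℤ) : ℚ))
  have hG1 : ∀ S, ¬ (p : ℤ) ^ (e + 1) ∣ S - S₀ → G (S + T) = G S := by
    intro S hS
    have hS' : ¬ (p : ℤ) ^ (e + 1) ∣ α + S * m' := by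
      intro hcon
      apply hS
      have h1 : (p : ℤ) ^ (e + 1) ∣ m' * (S - S₀) := by
        have : m' * (S - S₀) = (α + S * m') - (α + S₀ * m') := by ring
        rw [this]
        exact dvd_sub hcon hS₀
      have h2 : IsCoprime ((p : ℤ) ^ (e + 1)) m' :=
        (IsCoprime.pow_right ((Prime.coprime_iff_not_dvd hpp).mpr hm').symm).symm
      exact h2.dvd_of_dvd_mul_left h1
    obtain ⟨v, n, hn, hvn⟩ : ∃ (v : ℕ) (n : ℤ), ¬ (p : ℤ) ∣ n ∧ α + S * m' = (p : ℤ) ^ v * n := by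
      have hfin : FiniteMultiplicity (p : ℤ) (α + S * m') := by
        apply Int.finiteMultiplicity_iff.mpr
        refine ⟨?_, ?_⟩
        · simpa using hp.ne_one
        · intro h
          exact hS' (h ▸ dvd_zero _)
      obtain ⟨m, hm1, hm2⟩ := hfin.exists_eq_pow_mul_and_not_dvd
      exact ⟨_, m, hm2, hm1⟩
    have hv : v ≤ e := by
      by_contra hcon
      apply hS'
      rw [hvn]
      exact (pow_dvd_pow _ (by omega)).mul_right _
    have q1 : n * (δ * (p : ℤ) ^ (e + 1)) - ((p : ℤ) ^ (e + 1 - v) * m') * (β * (p : ℤ) ^ e + S * δ) =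
        (p : ℤ) ^ (e + 1 - v) := by
      apply mul_left_cancel₀ (pow_ne_zero v hp0)
      have h1 : (p : ℤ) ^ v * (p : ℤ) ^ (e + 1 - v) = (p : ℤ) ^ (e + 1) := by
        rw [← pow_add]
        congr 1
        omega
      rw [h1]
      rw [hem'] at hdet
      linear_combination (-(δ * (p : ℤ) ^ (e + 1))) * hvn -
        (m' * (β * (p : ℤ) ^ e + S * δ)) * h1 + (p : ℤ) ^ (e + 1) * hdet
    have q2 : n * (δ * (p : ℤ) ^ (e + 1)) -
        ((p : ℤ) ^ (e + 1 - v) * m') * (β * (p : ℤ) ^ e + (S + T) * δ) =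
        (p : ℤ) ^ (e + 1 - v + o) := by
      rw [pow_add]
      linear_combination q1 - ((p : ℤ) ^ (e + 1 - v)) * hT1
    have hcop1 : IsCoprime n ((p : ℤ) ^ (e + 1 - v) * m') := by
      have h1 : IsCoprime n ((p : ℤ) ^ (e + 1 - v)) :=
        IsCoprime.pow_right ((Prime.coprime_iff_not_dvd hpp).mpr hn).symm
      obtain ⟨s, t, hst⟩ := h1
      refine ⟨s + t * (δ * (p : ℤ) ^ (e + 1)), -(t * (β * (p : ℤ) ^ e + S * δ)), ?_⟩
      linear_combination hst + t * q1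
    have hs : ψ (((β * (p : ℤ) ^ e + S * δ : ℤ) : ℚ) / ((δ * (p : ℤ) ^ (e + 1) : ℤ) : ℚ))
        (((β * (p : ℤ) ^ e + (S + T) * δ : ℤ) : ℚ) / ((δ * (p : ℤ) ^ (e + 1) : ℤ) : ℚ)) = 0 := by
      apply sheetP hp hE hZ n ((p : ℤ) ^ (e + 1 - v) * m') _ _ _ _ ?_ hcop1
        (mul_ne_zero hδ (pow_ne_zero _ hp0)) (mul_ne_zero hδ (pow_ne_zero _ hp0)) _ _ q1 q2
      push_cast
      apply mul_dvd_mul _ hN'm
      exact dvd_pow_self _ (by omega)
    have hs2 : ψ (((S + T : ℤ) : ℚ) / (p : ℚ) ^ (e + 1)) ((S : ℚ) / (p : ℚ) ^ (e + 1)) = 0 :=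
      hZ _ _ _ _
    change ψ (((S + T : ℤ) : ℚ) / (p : ℚ) ^ (e + 1))
      (((β * (p : ℤ) ^ e + (S + T) * δ : ℤ) : ℚ) / ((δ * (p : ℤ) ^ (e + 1) : ℤ) : ℚ)) =
      ψ ((S : ℚ) / (p : ℚ) ^ (e + 1))
      (((β * (p : ℤ) ^ e + S * δ : ℤ) : ℚ) / ((δ * (p : ℤ) ^ (e + 1) : ℤ) : ℚ))
    rw [← hadd _ ((S : ℚ) / (p : ℚ) ^ (e + 1)), hs2, zero_add,
      ← hadd ((S : ℚ) / (p : ℚ) ^ (e + 1))
        (((β * (p : ℤ) ^ e + S * δ : ℤ) : ℚ) / ((δ * (p : ℤ) ^ (e + 1) : ℤ) : ℚ)), hs, add_zero]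
  have hG2 : ∀ S, G (S + (p : ℤ) ^ (e + 1)) = G S := by
    intro S
    have h3 := hE 1 1 0 1 (by ring) (dvd_zero _) ((S : ℚ) / (p : ℚ) ^ (e + 1))
      (((β * (p : ℤ) ^ e + S * δ : ℤ) : ℚ) / ((δ * (p : ℤ) ^ (e + 1) : ℤ) : ℚ))
      (by simp) (by simp)
    simp only [Int.cast_one, Int.cast_zero, one_mul, zero_mul, zero_add, div_one, hχ] at h3
    change ψ (((S + (p : ℤ) ^ (e + 1) : ℤ) : ℚ) / (p : ℚ) ^ (e + 1))
      (((β * (p : ℤ) ^ e + (S + (p : ℤ) ^ (e + 1)) * δ : ℤ) : ℚ) /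
        ((δ * (p : ℤ) ^ (e + 1) : ℤ) : ℚ)) =
      ψ ((S : ℚ) / (p : ℚ) ^ (e + 1))
      (((β * (p : ℤ) ^ e + S * δ : ℤ) : ℚ) / ((δ * (p : ℤ) ^ (e + 1) : ℤ) : ℚ))
    rw [← h3]
    congr 1
    · field_simp
      push_cast
      ring
    · push_cast
      field_simp
      ring
  have hG : ∀ S, G S = G 0 := fun S => const_of_cycle
    (pow_pos (by exact_mod_cast hp.pos) (e + 1)) hTp hG2 hG1 S
  have h5 := hT 0 (β / δ)
  have h6 : ∀ j ∈ range p, ψ ((0 + (j : ℚ)) / p) ((β / δ + j) / p) = G 0 := by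
    intro j _
    rw [← hG (j * (p : ℤ) ^ e)]
    change _ = ψ (((j * (p : ℤ) ^ e : ℤ) : ℚ) / (p : ℚ) ^ (e + 1))
      (((β * (p : ℤ) ^ e + j * (p : ℤ) ^ e * δ : ℤ) : ℚ) / ((δ * (p : ℤ) ^ (e + 1) : ℤ) : ℚ))
    congr 1
    · push_cast
      field_simp
      ring
    · push_cast
      field_simp
      ring
  rw [sum_congr rfl h6, sum_const, card_range, nsmul_eq_mul, CharP.cast_eq_zero, zero_mul] at h5
  exact (mul_eq_zero.mp h5).resolve_left ha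

/-- The key step at the level `p N'`: all cusps with a denominator prime to `N'`. -/
theorem key_stepP_all (hp : p.Prime) [CharP F p] {N' : ℕ} (hpN : p.Coprime N') {a : F}
    (ha : a ≠ 0) (hadd : ∀ x y z, ψ x y + ψ y z = ψ x z) (hE : Eqv (p * N') χ ψ) (hχ : χ 1 = 1)
    (hZ : ∀ (S S' : ℤ) (i i' : ℕ), ψ (S / (p : ℚ) ^ i) (S' / (p : ℚ) ^ i') = 0)
    (hT : ∀ x y, a * ψ x y = ∑ j ∈ range p, ψ ((x + j) / p) ((y + j) / p))
    (β δ : ℤ) (hδ : δ ≠ 0) (hcop : IsCoprime δ (β * N')) : ψ 0 (β / δ) = 0 := by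
  have hp0 : (p : ℤ) ≠ 0 := by exact_mod_cast hp.ne_zero
  have hpQ : (p : ℚ) ≠ 0 := by exact_mod_cast hp.ne_zero
  have hpp : Prime (p : ℤ) := Nat.prime_iff_prime_int.mp hp
  have hβδ : IsCoprime β δ := (hcop.of_mul_right_left).symm
  have hδN : IsCoprime δ (N' : ℤ) := hcop.of_mul_right_right
  by_cases hpδ : (p : ℤ) ∣ δ
  · obtain ⟨δ', hδ'⟩ := hpδ
    obtain ⟨D₀, B₀', hD₀⟩ := hβδ
    obtain ⟨s, t, hst⟩ := hδN
    -- `D = D₀ + k δ ≡ δ' (mod N')`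
    obtain ⟨k, hk⟩ : ∃ k : ℤ, (N' : ℤ) ∣ δ' - (D₀ + k * δ) := by
      refine ⟨(δ' - D₀) * s, (δ' - D₀) * t, ?_⟩
      linear_combination (-(δ' - D₀)) * hst
    obtain ⟨D, hD⟩ : ∃ D : ℤ, D = D₀ + k * δ := ⟨_, rfl⟩
    obtain ⟨B, hB⟩ : ∃ B : ℤ, B = -B₀' + k * β := ⟨_, rfl⟩
    rw [← hD] at hk
    have hβD : β * D - B * δ = 1 := by
      rw [hD, hB]
      linear_combination hD₀
    have hD0 : D ≠ 0 := by
      intro h
      rw [h, mul_zero, zero_sub, hδ'] at hβD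
      apply hpp.not_isUnit
      exact IsUnit.of_mul_eq_one (-(B * δ')) (by linear_combination hβD)
    have hdet : (β - B * p) * D - B * (δ - p * D) = 1 := by linear_combination hβD
    have hC : ((p * N' : ℕ) : ℤ) ∣ δ - p * D := by
      obtain ⟨m, hm⟩ := hk
      refine ⟨m, ?_⟩
      push_cast
      linear_combination hδ' + (p : ℤ) * hm
    have hdetD : IsCoprime D (B * (p * N' : ℕ)) := by
      obtain ⟨m, hm⟩ := hC
      refine ⟨β - B * p, -m, ?_⟩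
      linear_combination hdet + B * hm
    have hδQ : (δ : ℚ) ≠ 0 := by exact_mod_cast hδ
    have hDQ : (D : ℚ) ≠ 0 := by exact_mod_cast hD0
    have e1 : ((δ - p * D : ℤ) : ℚ) * (1 / (p : ℚ)) + D = δ / p := by
      push_cast
      field_simp
      ring
    have e2 : ((β - B * p : ℤ) : ℚ) * (1 / (p : ℚ)) + B = β / p := by
      push_cast
      field_simp
      ring
    have h1 := hE (β - B * p) B (δ - p * D) D hdet hC 0 (1 / (p : ℚ))
      (by simpa using hD0) (by rw [e1]; exact div_ne_zero hδQ hpQ)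
    have h2 := hZ 0 1 0 1
    simp only [Int.cast_zero, pow_zero, div_one, Int.cast_one, pow_one] at h2
    rw [e1, e2, h2, mul_zero, mul_zero, zero_add, mul_zero, zero_add,
      div_div_div_cancel_right₀ hpQ] at h1
    have h3 := key_stepP hp hpN ha hadd hE hχ hZ hT B D hD0 hdetD
    rw [← hadd 0 ((B : ℚ) / D) (β / δ), h3, h1, add_zero]
  · apply key_stepP hp hpN ha hadd hE hχ hZ hT β δ hδ
    apply IsCoprime.mul_right hβδ.symm
    push_cast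
    exact IsCoprime.mul_right ((Prime.coprime_iff_not_dvd hpp).mpr hpδ).symm hδN

end Pool.Agent.MuSym
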