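import Pool.Agent.MuSym.Defs

/-!
The key step: a symbol on the finite cusps which vanishes on the pairs of elements of `ℤ[1/p]`
vanishes on all pairs of cusps in the orbit of `0`.
-/

open Finset

namespace Pool.Agent.MuSym

variable {F : Type} [Field F] {p N : ℕ} (ε : DirichletCharacter F N)

/-- `Ψ` is equivariant under `Γ₀(N)`, at the finite cusps. -/
def Equi (Ψ : ℚ → ℚ → F → F → F) : Prop :=
  ∀ a b c d : ℤ, a * d - b * c = 1 → (N : ℤ) ∣ c → ∀ x y : ℚ, (c : ℚ) * x + d ≠ 0 →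
    (c : ℚ) * y + d ≠ 0 → ∀ u v, Ψ ((a * x + b) / (c * x + d)) ((a * y + b) / (c * y + d)) u v =
      ε d * Ψ x y (a * u + c * v) (b * u + d * v)

/-- `Ψ` vanishes on the pairs of elements of `ℤ[1/p]`. -/
def Van (p : ℕ) (Ψ : ℚ → ℚ → F → F → F) : Prop :=
  ∀ (S S' : ℤ) (i i' : ℕ) u v, Ψ (S / p ^ i) (S' / p ^ i') u v = 0

variable {ε}

/-- `Ψ` vanishes on the pairs of points of one sheet. -/
lemma sheet (hp : p.Prime) (hpN : p.Coprime N) {Ψ : ℚ → ℚ → F → F → F} (hE : Equi ε Ψ)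
    (hZ : Van p Ψ) (a0 c0 b d b' d' : ℤ) (hNc : (N : ℤ) ∣ c0) (hd : d ≠ 0) (hd' : d' ≠ 0)
    (i i' : ℕ) (h1 : a0 * d - c0 * b = (p : ℤ) ^ i) (h2 : a0 * d' - c0 * b' = (p : ℤ) ^ i')
    (u v : F) : Ψ (b / d) (b' / d') u v = 0 := by
  have hp0 : (p : ℤ) ≠ 0 := by exact_mod_cast hp.ne_zero
  have hpp : Prime (p : ℤ) := Nat.prime_iff_prime_int.mp hp
  obtain ⟨h, a1, c1, hh, hcop, ha1, hc1⟩ : ∃ h a1 c1 : ℤ, 0 < h ∧ IsCoprime a1 c1 ∧
      a0 = h * a1 ∧ c0 = h * c1 := by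
    have hne : a0 ≠ 0 ∨ c0 ≠ 0 := by
      by_contra hcon
      push Not at hcon
      rw [hcon.1, hcon.2, zero_mul, zero_mul, sub_zero] at h1
      exact (pow_ne_zero i hp0) h1.symm
    have hg : 0 < Int.gcd a0 c0 := Int.gcd_pos_iff.mpr hne
    refine ⟨Int.gcd a0 c0, a0 / Int.gcd a0 c0, c0 / Int.gcd a0 c0, by exact_mod_cast hg, ?_,
      ?_, ?_⟩
    · rw [Int.isCoprime_iff_gcd_eq_one]
      exact Int.gcd_ediv_gcd_ediv_gcd hg
    · exact (Int.mul_ediv_cancel' (Int.gcd_dvd_left _ _)).symm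
    · exact (Int.mul_ediv_cancel' (Int.gcd_dvd_right _ _)).symm
  obtain ⟨l, hl, hl'⟩ : ∃ l ≤ i, h = (p : ℤ) ^ l := by
    have hdvd : h ∣ (p : ℤ) ^ i := by
      rw [← h1, ha1, hc1]
      exact ⟨a1 * d - c1 * b, by ring⟩
    obtain ⟨l, hl, hl'⟩ := (dvd_prime_pow hpp i).mp hdvd
    refine ⟨l, hl, ?_⟩
    rcases Int.associated_iff.mp hl' with h3 | h3
    · exact h3
    · have : 0 < (p : ℤ) ^ l := by
        have : 0 < (p : ℤ) := by exact_mod_cast hp.pos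
        positivity
      omega
  obtain ⟨l2, hl2, hl2'⟩ : ∃ l2 ≤ i', h = (p : ℤ) ^ l2 := by
    have hdvd : h ∣ (p : ℤ) ^ i' := by
      rw [← h2, ha1, hc1]
      exact ⟨a1 * d' - c1 * b', by ring⟩
    obtain ⟨l, hl, hl'⟩ := (dvd_prime_pow hpp i').mp hdvd
    refine ⟨l, hl, ?_⟩
    rcases Int.associated_iff.mp hl' with h3 | h3
    · exact h3
    · have : 0 < (p : ℤ) ^ l := by
        have : 0 < (p : ℤ) := by exact_mod_cast hp.pos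
        positivity
      omega
  have q1 : a1 * d - c1 * b = (p : ℤ) ^ (i - l) := by
    have : (p : ℤ) ^ l * (a1 * d - c1 * b) = (p : ℤ) ^ l * (p : ℤ) ^ (i - l) := by
      rw [← pow_add, Nat.add_sub_cancel' hl, ← h1, ha1, hc1, hl']
      ring
    exact mul_left_cancel₀ (pow_ne_zero _ hp0) this
  have q2 : a1 * d' - c1 * b' = (p : ℤ) ^ (i' - l2) := by
    have : (p : ℤ) ^ l2 * (a1 * d' - c1 * b') = (p : ℤ) ^ l2 * (p : ℤ) ^ (i' - l2) := by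
      rw [← pow_add, Nat.add_sub_cancel' hl2, ← h2, ha1, hc1, hl2']
      ring
    exact mul_left_cancel₀ (pow_ne_zero _ hp0) this
  have hNc1 : (N : ℤ) ∣ c1 := by
    rw [hc1, hl'] at hNc
    have : IsCoprime (N : ℤ) ((p : ℤ) ^ l) := by
      apply IsCoprime.pow_right
      exact (Nat.isCoprime_iff_coprime.mpr hpN).symm
    exact this.dvd_of_dvd_mul_left hNc
  obtain ⟨d2, b2', hbez⟩ := hcop
  obtain ⟨b2, rfl⟩ : ∃ b2, b2' = -b2 := ⟨-b2', by ring⟩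
  have hdet : a1 * d2 - b2 * c1 = 1 := by linarith
  have hdetQ : (a1 : ℚ) * d2 - b2 * c1 = 1 := by exact_mod_cast hdet
  have hq1 : (a1 : ℚ) * d - c1 * b = (p : ℚ) ^ (i - l) := by exact_mod_cast q1
  have hq2 : (a1 : ℚ) * d' - c1 * b' = (p : ℚ) ^ (i' - l2) := by exact_mod_cast q2
  have hpQ : (p : ℚ) ≠ 0 := by exact_mod_cast hp.ne_zero
  have hP1 : (p : ℚ) ^ (i - l) ≠ 0 := pow_ne_zero _ hpQ
  have hP2 : (p : ℚ) ^ (i' - l2) ≠ 0 := pow_ne_zero _ hpQ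
  have hdQ : (d : ℚ) ≠ 0 := by exact_mod_cast hd
  have hdQ' : (d' : ℚ) ≠ 0 := by exact_mod_cast hd'
  -- the points of `ℤ[1/p]`
  have e1 : (c1 : ℚ) * (((d2 * b - b2 * d : ℤ) : ℚ) / (p : ℚ) ^ (i - l)) + d2 =
      d / (p : ℚ) ^ (i - l) := by
    rw [eq_div_iff hP1, add_mul, mul_assoc, div_mul_cancel₀ _ hP1, ← hq1]
    push_cast
    linear_combination (d : ℚ) * hdetQ
  have e2 : (a1 : ℚ) * (((d2 * b - b2 * d : ℤ) : ℚ) / (p : ℚ) ^ (i - l)) + b2 =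
      b / (p : ℚ) ^ (i - l) := by
    rw [eq_div_iff hP1, add_mul, mul_assoc, div_mul_cancel₀ _ hP1, ← hq1]
    push_cast
    linear_combination (b : ℚ) * hdetQ
  have e3 : (c1 : ℚ) * (((d2 * b' - b2 * d' : ℤ) : ℚ) / (p : ℚ) ^ (i' - l2)) + d2 =
      d' / (p : ℚ) ^ (i' - l2) := by
    rw [eq_div_iff hP2, add_mul, mul_assoc, div_mul_cancel₀ _ hP2, ← hq2]
    push_cast
    linear_combination (d' : ℚ) * hdetQ
  have e4 : (a1 : ℚ) * (((d2 * b' - b2 * d' : ℤ) : ℚ) / (p : ℚ) ^ (i' - l2)) + b2 =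
      b' / (p : ℚ) ^ (i' - l2) := by
    rw [eq_div_iff hP2, add_mul, mul_assoc, div_mul_cancel₀ _ hP2, ← hq2]
    push_cast
    linear_combination (b' : ℚ) * hdetQ
  have key := hE a1 b2 c1 d2 hdet hNc1
    (((d2 * b - b2 * d : ℤ) : ℚ) / (p : ℚ) ^ (i - l))
    (((d2 * b' - b2 * d' : ℤ) : ℚ) / (p : ℚ) ^ (i' - l2))
    (by rw [e1]; exact div_ne_zero hdQ hP1) (by rw [e3]; exact div_ne_zero hdQ' hP2) u v
  rw [e1, e2, e3, e4, hZ, mul_zero, div_div_div_cancel_right₀ hP1,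
    div_div_div_cancel_right₀ hP2] at key
  exact key

omit [Field F] in
/-- A function on the integers with two coprime periods is constant. -/
lemma const_of_periods {G : ℤ → F} {s t : ℤ} (hst : IsCoprime s t) (hs : ∀ x, G (x + s) = G x)
    (ht : ∀ x, G (x + t) = G x) (x : ℤ) : G x = G 0 := by
  have aux : ∀ {w : ℤ}, (∀ x, G (x + w) = G x) → ∀ (k x : ℤ), G (x + k * w) = G x := by
    intro w hw k
    induction k using Int.induction_on with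
    | zero => intro x; simp
    | succ n ih =>
      intro x
      rw [show x + (n + 1) * w = (x + n * w) + w by ring, hw, ih]
    | pred n ih =>
      intro x
      have := hw (x + (-(n : ℤ) - 1) * w)
      rw [show x + (-(n : ℤ) - 1) * w + w = x + -(n : ℤ) * w by ring, ih] at this
      exact this.symm
  obtain ⟨k, l, hkl⟩ := hst
  have h1 := aux hs (x * k) (0 + x * l * t)
  have h2 := aux ht (x * l) 0
  rw [h2] at h1
  rw [← h1]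
  congr 1
  linear_combination (-x) * hkl

/-- The key step. -/
theorem key_step (hp : p.Prime) [CharP F p] (hpN : p.Coprime N) {a : F}
    (ha : a ≠ 0) {Ψ : ℚ → ℚ → F → F → F}
    (hadd : ∀ x y z u v, Ψ x y u v + Ψ y z u v = Ψ x z u v) (hE : Equi ε Ψ) (hZ : Van p Ψ)
    (hT : ∀ x y, a * Ψ x y 0 1 = ∑ j ∈ range p, Ψ ((x + j) / p) ((y + j) / p) 0 1)
    (β δ : ℤ) (hδ : δ ≠ 0) (hcop : IsCoprime δ (β * N)) : Ψ 0 (β / δ) 0 1 = 0 := by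
  have hp0 : (p : ℤ) ≠ 0 := by exact_mod_cast hp.ne_zero
  have hpQ : (p : ℚ) ≠ 0 := by exact_mod_cast hp.ne_zero
  obtain ⟨α, w, hw⟩ := hcop
  obtain ⟨κ, hκN, hdet⟩ : ∃ κ : ℤ, (N : ℤ) ∣ κ ∧ α * δ - β * κ = 1 :=
    ⟨-(w * N), ⟨-w, by ring⟩, by linear_combination hw⟩
  by_cases hκ : κ = 0
  · rw [hκ, mul_zero, sub_zero] at hdet
    have hδ1 : δ = 1 ∨ δ = -1 := Int.isUnit_iff.mp (IsUnit.of_mul_eq_one α (by rw [mul_comm]; exact hdet))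
    rcases hδ1 with rfl | rfl
    · have := hZ 0 β 0 0 0 1
      simpa using this
    · have h3 := hZ 0 (-β) 0 0 0 1
      have h4 : ((β : ℤ) : ℚ) / ((-1 : ℤ) : ℚ) = ((-β : ℤ) : ℚ) / (p : ℚ) ^ 0 := by
        push_cast
        ring
      rw [h4, ← h3]
      congr 1
      simp
  have hκδ : κ * δ ≠ 0 := mul_ne_zero hκ hδ
  obtain ⟨e, m, hm, hem⟩ : ∃ (e : ℕ) (m : ℤ), ¬ (p : ℤ) ∣ m ∧ κ * δ = (p : ℤ) ^ e * m := by
    have hfin : FiniteMultiplicity (p : ℤ) (κ * δ) := by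
      apply Int.finiteMultiplicity_iff.mpr
      refine ⟨?_, hκδ⟩
      simpa using hp.ne_one
    obtain ⟨m, hm1, hm2⟩ := hfin.exists_eq_pow_mul_and_not_dvd
    exact ⟨_, m, hm2, hm1⟩
  have hpm : Nat.Coprime p m.natAbs := by
    rw [hp.coprime_iff_not_dvd]
    intro hcon
    exact hm (Int.natCast_dvd.mpr hcon)
  obtain ⟨o, T, ho, hT1⟩ : ∃ (o : ℕ) (T : ℤ), o ≠ 0 ∧ m * T = 1 - (p : ℤ) ^ o := by
    have hm0 : m ≠ 0 := by
      rintro rfl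
      simp at hm
    have htot := Nat.ModEq.pow_totient hpm
    have hdvd : m ∣ 1 - (p : ℤ) ^ (Nat.totient m.natAbs) := by
      have h3 := (Nat.modEq_iff_dvd.mp htot)
      rw [← Int.natAbs_dvd]
      have h4 : ((m.natAbs : ℕ) : ℤ) ∣ ((1 : ℕ) : ℤ) - ((p ^ Nat.totient m.natAbs : ℕ) : ℤ) := h3
      push_cast at h4 ⊢
      exact h4
    obtain ⟨T, hT2⟩ := hdvd
    refine ⟨_, T, ?_, hT2.symm⟩
    have : 0 < Nat.totient m.natAbs := Nat.totient_pos.mpr (Int.natAbs_pos.mpr hm0)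
    omega
  have hTp : IsCoprime T ((p : ℤ) ^ (e + 1)) := by
    apply IsCoprime.pow_right
    refine ⟨m, (p : ℤ) ^ (o - 1), ?_⟩
    rw [hT1, ← pow_succ, Nat.sub_add_cancel (Nat.pos_of_ne_zero ho)]
    ring
  have hδQ : (δ : ℚ) ≠ 0 := by exact_mod_cast hδ
  have hPe : (p : ℚ) ^ (e + 1) ≠ 0 := pow_ne_zero _ hpQ
  let G : ℤ → F := fun S => Ψ ((S : ℚ) / (p : ℚ) ^ (e + 1))
    (((β * (p : ℤ) ^ e + S * δ : ℤ) : ℚ) / ((δ * (p : ℤ) ^ (e + 1) : ℤ) : ℚ)) 0 1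
  have hG1 : ∀ S, G (S + T) = G S := by
    intro S
    have hs : Ψ (((β * (p : ℤ) ^ e + S * δ : ℤ) : ℚ) / ((δ * (p : ℤ) ^ (e + 1) : ℤ) : ℚ))
        (((β * (p : ℤ) ^ e + (S + T) * δ : ℤ) : ℚ) / ((δ * (p : ℤ) ^ (e + 1) : ℤ) : ℚ)) 0 1 = 0 := by
      apply sheet hp hpN hE hZ (α * (p : ℤ) ^ e + S * κ) (κ * (p : ℤ) ^ (e + 1)) _ _ _ _
        (hκN.mul_right _) (mul_ne_zero hδ (pow_ne_zero _ hp0)) (mul_ne_zero hδ (pow_ne_zero _ hp0))
        (2 * e + 1) (2 * e + 1 + o)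
      · rw [show (2 * e + 1) = e + (e + 1) by ring, pow_add]
        linear_combination ((p : ℤ) ^ e * (p : ℤ) ^ (e + 1)) * hdet
      · rw [show (2 * e + 1 + o) = e + (e + 1) + o by ring, pow_add, pow_add]
        linear_combination ((p : ℤ) ^ e * (p : ℤ) ^ (e + 1)) * hdet -
          (p : ℤ) ^ (e + 1) * T * hem - (p : ℤ) ^ (e + 1) * (p : ℤ) ^ e * hT1
    have hs2 : Ψ (((S + T : ℤ) : ℚ) / (p : ℚ) ^ (e + 1)) ((S : ℚ) / (p : ℚ) ^ (e + 1)) 0 1 = 0 :=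
      hZ _ _ _ _ _ _
    change Ψ (((S + T : ℤ) : ℚ) / (p : ℚ) ^ (e + 1))
      (((β * (p : ℤ) ^ e + (S + T) * δ : ℤ) : ℚ) / ((δ * (p : ℤ) ^ (e + 1) : ℤ) : ℚ)) 0 1 =
      Ψ ((S : ℚ) / (p : ℚ) ^ (e + 1))
      (((β * (p : ℤ) ^ e + S * δ : ℤ) : ℚ) / ((δ * (p : ℤ) ^ (e + 1) : ℤ) : ℚ)) 0 1
    rw [← hadd _ ((S : ℚ) / (p : ℚ) ^ (e + 1)), hs2, zero_add,
      ← hadd ((S : ℚ) / (p : ℚ) ^ (e + 1))
        (((β * (p : ℤ) ^ e + S * δ : ℤ) : ℚ) / ((δ * (p : ℤ) ^ (e + 1) : ℤ) : ℚ)), hs, add_zero]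
  have hG2 : ∀ S, G (S + (p : ℤ) ^ (e + 1)) = G S := by
    intro S
    have h3 := hE 1 1 0 1 (by ring) (dvd_zero _) ((S : ℚ) / (p : ℚ) ^ (e + 1))
      (((β * (p : ℤ) ^ e + S * δ : ℤ) : ℚ) / ((δ * (p : ℤ) ^ (e + 1) : ℤ) : ℚ))
      (by simp) (by simp) 0 1
    simp only [Int.cast_one, Int.cast_zero, one_mul, zero_mul, zero_add, div_one, mul_zero,
      mul_one, map_one] at h3
    change Ψ (((S + (p : ℤ) ^ (e + 1) : ℤ) : ℚ) / (p : ℚ) ^ (e + 1))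
      (((β * (p : ℤ) ^ e + (S + (p : ℤ) ^ (e + 1)) * δ : ℤ) : ℚ) /
        ((δ * (p : ℤ) ^ (e + 1) : ℤ) : ℚ)) 0 1 =
      Ψ ((S : ℚ) / (p : ℚ) ^ (e + 1))
      (((β * (p : ℤ) ^ e + S * δ : ℤ) : ℚ) / ((δ * (p : ℤ) ^ (e + 1) : ℤ) : ℚ)) 0 1
    rw [← h3]
    congr 1
    · field_simp
      push_cast
      ring
    · push_cast
      field_simp
      ring
  have hG : ∀ S, G S = G 0 := fun S => const_of_periods hTp hG1 hG2 S
  have h5 := hT 0 (β / δ)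
  have h6 : ∀ j ∈ range p, Ψ ((0 + (j : ℚ)) / p) ((β / δ + j) / p) 0 1 = G 0 := by
    intro j _
    rw [← hG (j * (p : ℤ) ^ e)]
    change _ = Ψ (((j * (p : ℤ) ^ e : ℤ) : ℚ) / (p : ℚ) ^ (e + 1))
      (((β * (p : ℤ) ^ e + j * (p : ℤ) ^ e * δ : ℤ) : ℚ) / ((δ * (p : ℤ) ^ (e + 1) : ℤ) : ℚ)) 0 1
    congr 1
    · push_cast
      field_simp
      ring
    · push_cast
      field_simp
      ring
  rw [sum_congr rfl h6, sum_const, card_range, nsmul_eq_mul, CharP.cast_eq_zero, zero_mul] at h5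
  exact (mul_eq_zero.mp h5).resolve_left ha

end Pool.Agent.MuSym
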