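import Pool.Agent.MuSym.Fn
import Pool.Agent.MuSym.Bq

/-!
The reduction: if the values on the paths from `∞` to `b / p ^ n` vanish, then a multiple of the
boundary symbol can be subtracted to reach a symbol which vanishes on `ℤ[1/p]`.
-/

open MvPolynomial OnePoint Finset

namespace Pool.Agent.MuSym

variable {F : Type} [Field F] {p N g : ℕ} {ε : DirichletCharacter F N} {a : F}
  {Φ : OnePoint ℚ → OnePoint ℚ → MvPolynomial (Fin 2) F}

/-- The value at the path from `∞` to `0`. -/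
noncomputable def phi0 (Φ : OnePoint ℚ → OnePoint ℚ → MvPolynomial (Fin 2) F) : F :=
  eval ![0, 1] (Φ ∞ ((0 : ℚ) : OnePoint ℚ))

lemma phi_add (hΦ : IsModSym N g ε Φ) (S : ℤ) (r : ℚ) (u v : F) :
    eval ![u, v] (Φ ∞ ((r + S : ℚ) : OnePoint ℚ)) = eval ![u, S * u + v] (Φ ∞ (r : OnePoint ℚ)) := by
  have h := f_equiv hΦ 1 S 0 1 (by ring) (dvd_zero _) ∞ (r : OnePoint ℚ) u v
  rw [mob_infty_zero, mob_coe _ _ _ _ (by simp)] at h
  simpa using h

lemma phi_int (hΦ : IsModSym N g ε Φ) (S : ℤ) :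
    eval ![0, 1] (Φ ∞ ((S : ℚ) : OnePoint ℚ)) = phi0 Φ := by
  have h := phi_add hΦ S 0 0 1
  simpa [phi0] using h

lemma sign_cond (hΦ : IsModSym N g ε Φ) : phi0 Φ = 0 ∨ ε (-1) * (-1) ^ g = 1 := by
  have h := f_equiv hΦ (-1) 0 0 (-1) (by ring) (dvd_zero _) ∞ ((0 : ℚ) : OnePoint ℚ) 0 1
  rw [mob_infty_zero, mob_coe _ _ _ _ (by simp)] at h
  have h2 := eval_smul_homog (hΦ.homog ∞ ((0 : ℚ) : OnePoint ℚ)) (-1) 0 1
  simp only [Int.cast_neg, Int.cast_one, Int.cast_zero, mul_zero, add_zero, zero_add,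
    zero_div, mul_one] at h h2
  rw [h2] at h
  by_cases h3 : phi0 Φ = 0
  · exact Or.inl h3
  · right
    apply mul_right_cancel₀ h3
    rw [one_mul]
    unfold phi0
    rw [mul_assoc]
    exact h.symm

variable (hΦ : IsModSym N g ε Φ) (hval : ∀ n, 1 ≤ n → ∀ b : ℤ, ¬ (p : ℤ) ∣ b → val p Φ n b = 0)

include hΦ hval in
lemma a_phi0 (hp : p.Prime) [CharP F p] (hg : 1 ≤ g ∨ p ∣ N)
    (hT : ∀ x y, heckeT p N ε Φ x y = C a * Φ x y) : a * phi0 Φ = phi0 Φ := by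
  have h := f_T_inf hp hΦ hT 0 0 1
  unfold phi0
  rw [h, ← mul_assoc, eps_pow hp ε hg, zero_mul, add_zero,
    sum_eq_single_of_mem 0 (mem_range.mpr hp.pos)]
  · simp
  · intro j hj hj0
    have hj1 : ¬ (p : ℤ) ∣ (j : ℤ) := by
      intro hcon
      have := Int.natCast_dvd_natCast.mp hcon
      exact absurd (Nat.le_of_dvd (Nat.pos_of_ne_zero hj0) this) (by simpa using hj)
    have h1 := hval 1 le_rfl j hj1
    unfold val at h1
    rw [zero_add]
    rw [pow_one] at h1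
    push_cast at h1
    rw [h1, mul_zero]

include hΦ hval in
lemma phi_frac (hp : p.Prime) [CharP F p] (hg : 1 ≤ g ∨ p ∣ N) (i : ℕ) (S : ℤ) :
    eval ![0, 1] (Φ ∞ (((S : ℚ) / (p : ℚ) ^ i : ℚ) : OnePoint ℚ)) =
      phi0 Φ * Bq ε g ((S : ℚ) / (p : ℚ) ^ i) 0 1 := by
  have hpQ : (p : ℚ) ≠ 0 := by exact_mod_cast hp.ne_zero
  induction i generalizing S with
  | zero => rw [pow_zero, div_one, phi_int hΦ, Bq_int]; simp
  | succ i ih =>
    by_cases hS : (p : ℤ) ∣ S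
    · obtain ⟨S', rfl⟩ := hS
      have h1 : ((((p : ℤ) * S' : ℤ) : ℚ) / (p : ℚ) ^ (i + 1) : ℚ) = (S' : ℚ) / (p : ℚ) ^ i := by
        push_cast
        field_simp
        ring
      rw [h1, ih]
    · have h1 := hval (i + 1) (by omega) S hS
      unfold val at h1
      rw [h1, Bq_frac ε g hp hS (by omega), mul_zero, pow_succ, mul_assoc, eps_pow hp ε hg,
        mul_zero, mul_zero]

/-- The difference with the boundary symbol. -/
noncomputable def psi (ε : DirichletCharacter F N) (g : ℕ)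
    (Φ : OnePoint ℚ → OnePoint ℚ → MvPolynomial (Fin 2) F) (x y : ℚ) (u v : F) : F :=
  eval ![u, v] (Φ (x : OnePoint ℚ) (y : OnePoint ℚ)) - phi0 Φ * (Bq ε g y u v - Bq ε g x u v)

include hΦ in
lemma psi_add (x y z : ℚ) (u v : F) :
    psi ε g Φ x y u v + psi ε g Φ y z u v = psi ε g Φ x z u v := by
  unfold psi
  rw [← f_add hΦ (x : OnePoint ℚ) (y : OnePoint ℚ) (z : OnePoint ℚ) u v]
  ring

include hΦ in
lemma psi_equi : Equi ε (psi ε g Φ) := by
  intro a b c d hdet hN x y hx hy u v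
  unfold psi
  have h := f_equiv hΦ a b c d hdet hN (x : OnePoint ℚ) (y : OnePoint ℚ) u v
  rw [mob_coe _ _ _ _ hx, mob_coe _ _ _ _ hy] at h
  rw [h]
  rcases sign_cond hΦ with h0 | h0
  · rw [h0]; ring
  · rw [Bq_equiv ε g h0 hdet hN hx, Bq_equiv ε g h0 hdet hN hy]
    ring

/-- The same on the path from `∞`. -/
noncomputable def kk (ε : DirichletCharacter F N) (g : ℕ)
    (Φ : OnePoint ℚ → OnePoint ℚ → MvPolynomial (Fin 2) F) (r : ℚ) (u v : F) : F :=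
  eval ![u, v] (Φ ∞ (r : OnePoint ℚ)) - phi0 Φ * Bq ε g r u v

include hΦ in
lemma psi_inf (x y : ℚ) (u v : F) : psi ε g Φ x y u v = kk ε g Φ y u v - kk ε g Φ x u v := by
  unfold psi kk
  rw [← f_add hΦ ∞ (x : OnePoint ℚ) (y : OnePoint ℚ) u v]
  ring

include hΦ hval in
lemma kk_T (hp : p.Prime) [CharP F p] (hg : 1 ≤ g ∨ p ∣ N)
    (hT : ∀ x y, heckeT p N ε Φ x y = C a * Φ x y) (r : ℚ) (u v : F) :
    a * kk ε g Φ r u v = ∑ j ∈ range p, (v - j * u) ^ g * kk ε g Φ ((r + j) / p) 0 1 +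
      ε p * (u ^ g * kk ε g Φ (p * r) 1 0) := by
  have ha0 := a_phi0 hΦ hval hp hg hT
  have h1 := f_T_inf hp hΦ hT r u v
  have h2 := Bq_T (p := p) ε hg hp r u v
  unfold kk
  have h3 : ∑ j ∈ range p, (v - j * u) ^ g * (eval ![0, 1] (Φ ∞ (((r + j) / p : ℚ) : OnePoint ℚ)) -
      phi0 Φ * Bq ε g ((r + j) / p) 0 1) =
      ∑ j ∈ range p, (v - j * u) ^ g * eval ![0, 1] (Φ ∞ (((r + j) / p : ℚ) : OnePoint ℚ)) -
      phi0 Φ * ∑ j ∈ range p, (v - j * u) ^ g * Bq ε g ((r + j) / p) 0 1 := by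
    rw [mul_sum, ← sum_sub_distrib]
    apply sum_congr rfl
    intro j _
    ring
  rw [h3]
  linear_combination h1 - phi0 Φ * h2 - Bq ε g r u v * ha0

include hΦ hval in
lemma psi_T (hp : p.Prime) [CharP F p] (hg : 1 ≤ g ∨ p ∣ N)
    (hT : ∀ x y, heckeT p N ε Φ x y = C a * Φ x y) (x y : ℚ) :
    a * psi ε g Φ x y 0 1 = ∑ j ∈ range p, psi ε g Φ ((x + j) / p) ((y + j) / p) 0 1 := by
  have h1 := kk_T hΦ hval hp hg hT x 0 1
  have h2 := kk_T hΦ hval hp hg hT y 0 1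
  rw [← mul_assoc (ε p), eps_pow hp ε hg] at h1 h2
  simp only [mul_zero, sub_zero, one_pow, one_mul, zero_mul, add_zero] at h1 h2
  have h3 : ∑ j ∈ range p, psi ε g Φ ((x + j) / p) ((y + j) / p) 0 1 =
      ∑ j ∈ range p, kk ε g Φ ((y + j) / p) 0 1 - ∑ j ∈ range p, kk ε g Φ ((x + j) / p) 0 1 := by
    rw [← sum_sub_distrib]
    exact sum_congr rfl (fun j _ => psi_inf hΦ _ _ _ _)
  rw [h3, ← h1, ← h2, psi_inf hΦ]
  ring

include hΦ hval in
lemma kk_const (hp : p.Prime) [CharP F p] (hg : 1 ≤ g ∨ p ∣ N) (ha : a ≠ 0)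
    (hT : ∀ x y, heckeT p N ε Φ x y = C a * Φ x y) (S : ℤ) (i : ℕ) (u v : F) :
    kk ε g Φ (S / (p : ℚ) ^ i) u v = kk ε g Φ 0 1 0 * u ^ g := by
  apply kappa_const (K := kk ε g Φ) hp (e := ε p) ha g (kk_T hΦ hval hp hg hT)
  · intro r u v
    have h1 := phi_add hΦ 1 r u v
    rw [Int.cast_one, Int.cast_one, one_mul] at h1
    unfold kk
    rw [h1]
    rcases sign_cond hΦ with h0 | h0
    · rw [h0]; ring
    · have h2 := Bq_equiv ε g h0 (a := 1) (b := 1) (c := 0) (d := 1) (by ring) (dvd_zero _)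
        (r := r) (by simp) u v
      simp only [Int.cast_one, Int.cast_zero, one_mul, zero_mul, zero_add, div_one, add_zero,
        map_one] at h2
      rw [h2]
  · intro S i
    unfold kk
    rw [phi_frac hΦ hval hp hg, sub_self]

include hΦ hval in
lemma psi_van (hp : p.Prime) [CharP F p] (hg : 1 ≤ g ∨ p ∣ N) (ha : a ≠ 0)
    (hT : ∀ x y, heckeT p N ε Φ x y = C a * Φ x y) : Van p (psi ε g Φ) := by
  intro S S' i i' u v
  rw [psi_inf hΦ, kk_const hΦ hval hp hg ha hT, kk_const hΦ hval hp hg ha hT, sub_self]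

include hΦ hval in
/-- The boundary-corrected symbol has coefficient zero at all cusps in the orbit of `0`. -/
theorem psi_zero (hp : p.Prime) [CharP F p] (hpN : p.Coprime N) (hg : 1 ≤ g ∨ p ∣ N) (ha : a ≠ 0)
    (hT : ∀ x y, heckeT p N ε Φ x y = C a * Φ x y) (β δ : ℤ) (hδ : δ ≠ 0)
    (hcop : IsCoprime δ (β * N)) : psi ε g Φ 0 (β / δ) 0 1 = 0 :=
  key_step hp hpN ha (psi_add hΦ) (psi_equi hΦ) (psi_van hΦ hval hp hg ha hT)
    (psi_T hΦ hval hp hg hT) β δ hδ hcop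

end Pool.Agent.MuSym
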